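import Pool.Agent.Work.MP_8c604c_gt.T.OutS
import Pool.Agent.Work.MP_8c604c_gt.O.Defs
import Mathlib
import Pool.Agent.Work.MP_8c604c_gt.O.Jac
import Pool.Agent.Work.MP_8c604c_gt.OB.Lp

-- merged part: Pool.Agent.Work.MP_8c604c_gt.OC.Sto
section
-- merged part: Pool.Agent.Work.MP_8c604c_gt.OC.Gen
section
/-!
Block C, general lemmas: the theorem of Stokes in a vector space, algebra of forms, the Legendre map, radial integrals.
-/

set_option maxSynthPendingDepth 3

open Set Filter Topology MeasureTheory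
open scoped ContDiff

noncomputable section
namespace Pool.Agent.Work.MP_8c604c_gt.OC

open O TopologicalSpace Lam Om Real

section Gen
variable {V : Type} [NormedAddCommGroup V] [NormedSpace ℝ V] [FiniteDimensional ℝ V]
  [MeasurableSpace V] [BorelSpace V]

theorem stokes (μ : Measure V) [μ.IsAddHaarMeasure] {U : Opens V} (γ : Om U) {K : Set V}
    (hK : IsCompact K) (hKU : K ⊆ U) (h0 : ∀ x ∉ K, ev γ x = 0) :
    ∫ x, top (ev (d γ) x) ∂μ = 0 := by
  have hz : ∀ x ∉ K, ev γ =ᶠ[𝓝 x] fun _ => 0 := fun x hx =>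
    Filter.eventually_of_mem (hK.isClosed.isOpen_compl.mem_nhds hx) h0
  have hs : ContDiff ℝ ∞ (ev γ) := contDiff_iff_contDiffAt.2 fun x => by
    by_cases hx : x ∈ K
    · exact γ.smooth.contDiffAt (U.isOpen.mem_nhds (hKU hx))
    · exact contDiffAt_const.congr_of_eventuallyEq (hz x hx)
  have hc : HasCompactSupport (ev γ) := HasCompactSupport.intro hK h0
  have h1 : ∀ x, ev (d γ) x = dop (fderiv ℝ (ev γ) x) := fun x => by
    by_cases hx : x ∈ U
    · exact ev_d γ hx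
    · rw [ev_of_not_mem _ hx, (hz x fun h => hx (hKU h)).fderiv_eq, fderiv_fun_const, Pi.zero_apply,
        map_zero]
  have hi : Integrable (fderiv ℝ (ev γ)) μ :=
    (hs.continuous_fderiv (by simp)).integrable_of_hasCompactSupport (hc.fderiv ℝ)
  have h2 : ∫ x, fderiv ℝ (ev γ) x ∂μ = 0 := by
    ext v
    rw [ContinuousLinearMap.integral_apply hi]
    have := integral_smul_fderiv_eq_neg_fderiv_smul_of_integrable (μ := μ) (f := fun _ : V => (1 : ℝ))
      (g := ev γ) (v := v) (by simp) (by simpa using hi.apply_continuousLinearMap v)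
      (by simpa using hs.continuous.integrable_of_hasCompactSupport hc)
      (fun _ _ => differentiableAt_const _) (fun x _ => hs.differentiable (by simp) x)
    simpa using this
  have h3 := (top.comp dop).integral_comp_comm hi
  rw [h2, map_zero] at h3
  simp only [h1]
  exact h3

theorem integrable_top (μ : Measure V) [μ.IsAddHaarMeasure] {U : Opens V} (γ : Om U) {K : Set V}
    (hK : IsCompact K) (hKU : K ⊆ U) (h0 : ∀ x ∉ K, ev γ x = 0) :
    Integrable (fun x => top (ev γ x)) μ := by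
  have hs : Continuous (ev γ) := continuous_iff_continuousAt.2 fun x => by
    by_cases hx : x ∈ K
    · exact γ.smooth.continuousOn.continuousAt (U.isOpen.mem_nhds (hKU hx))
    · exact continuousAt_const.congr
        (Filter.eventually_of_mem (hK.isClosed.isOpen_compl.mem_nhds hx) fun y hy => (h0 y hy).symm)
  have hi : Integrable (ev γ) μ :=
    hs.integrable_of_hasCompactSupport (HasCompactSupport.intro hK h0)
  exact top.integrable_comp hi

omit [MeasurableSpace V] [BorelSpace V] in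
theorem supp_d {U : Opens V} (γ : Om U) {K : Set V} (hK : IsClosed K)
    (h0 : ∀ x ∉ K, ev γ x = 0) : ∀ x ∉ K, ev (d γ) x = 0 := by
  intro x hx
  by_cases hU : x ∈ U
  · have hz : ev γ =ᶠ[𝓝 x] fun _ => 0 := Filter.eventually_of_mem (hK.isOpen_compl.mem_nhds hx) h0
    rw [ev_d γ hU, hz.fderiv_eq, fderiv_fun_const, Pi.zero_apply, map_zero]
  · exact ev_of_not_mem _ hU

end Gen

theorem sto_ev_sum {V : Type} [NormedAddCommGroup V] [NormedSpace ℝ V] [FiniteDimensional ℝ V]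
    {U : Opens V} {ι : Type} (t : Finset ι) (a : ι → Om U) (x : V) :
    ev (∑ i ∈ t, a i) x = ∑ i ∈ t, ev (a i) x :=
  map_sum (AddMonoidHom.mk' (fun a : Om U => ev a x) fun a b => ev_add a b x) a t

section Alg
variable {V : Type} [NormedAddCommGroup V] [NormedSpace ℝ V] [FiniteDimensional ℝ V]
  {U : Opens V}

/-- Forms killed at a point by a vector. -/
def connK {x : V} (hx : x ∈ U) (v : V) : Subalgebra ℝ (Om U) where
  carrier := {γ | ctr v (ev γ x) = 0}
  mul_mem' {a b} ha hb := by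
    change ctr v (ev (a * b) x) = 0
    rw [ev_mul, ctr_mul, (ha : ctr v (ev a x) = 0), (hb : ctr v (ev b x) = 0), zero_mul, mul_zero,
      add_zero]
  add_mem' {a b} ha hb := by
    change ctr v (ev (a + b) x) = 0
    rw [ev_add, map_add, (ha : ctr v (ev a x) = 0), (hb : ctr v (ev b x) = 0), add_zero]
  algebraMap_mem' r := by
    change ctr v (ev (algebraMap ℝ _ r) x) = 0
    rw [Form_alg r hx, ctr_algebraMap]

/-- Closed forms. -/
def connZ (U : Opens V) : Subring (Om U) where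
  carrier := {γ | d γ = 0}
  mul_mem' {a b} ha hb := by
    change d (a * b) = 0
    rw [d_mul, (ha : d a = 0), (hb : d b = 0), zero_mul, mul_zero, add_zero]
  add_mem' {a b} ha hb := by
    change d (a + b) = 0
    rw [map_add, (ha : d a = 0), (hb : d b = 0), add_zero]
  one_mem' := d_one
  zero_mem' := map_zero d
  neg_mem' {a} ha := by
    change d (-a) = 0
    rw [map_neg, (ha : d a = 0), neg_zero]

theorem conn_id {a a' : Om U} (o : IsOne a) (o' : IsOne a') (m : ℕ) :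
    a' * d a' ^ m + d (a * ((a' - a) * ∑ i ∈ Finset.range m, d a' ^ i * d a ^ (m - 1 - i))) =
      a * d a ^ m + (a' - a) *
        (d a' ^ m + d a * ∑ i ∈ Finset.range m, d a' ^ i * d a ^ (m - 1 - i)) := by
  have h1 := (o'.commute_d (d a)).mul_geom_sum₂ m
  have h2 : d (∑ i ∈ Finset.range m, d a' ^ i * d a ^ (m - 1 - i)) = 0 :=
    (connZ U).sum_mem fun i _ =>
      (connZ U).mul_mem ((connZ U).pow_mem (d_d a') _) ((connZ U).pow_mem (d_d a) _)
  rw [d_mul, d_mul, h2, mul_zero, add_zero, map_sub, h1, o.inv, ← mul_assoc (d a),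
    (o.commute_d (a' - a)).eq]
  noncomm_ring

end Alg

theorem dop_symm {V : Type} [NormedAddCommGroup V] [NormedSpace ℝ V] [FiniteDimensional ℝ V]
    {S : V →L[ℝ] V →L[ℝ] ℝ} (h : ∀ u v, S u v = S v u) : dop (io.comp S) = 0 := by
  have e : dop (io.comp S) =
      ∑ i, ∑ j, S (bas V i) (bas V j) • (io (cob V i) * io (cob V j)) := by
    rw [dop_apply]
    refine Finset.sum_congr rfl fun i _ => ?_
    rw [ContinuousLinearMap.comp_apply]
    conv_lhs => rw [← aux_sum_cob (S (bas V i))]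
    simp only [map_sum, map_smul, Finset.mul_sum, mul_smul_comm]
  have e' : dop (io.comp S) = -dop (io.comp S) := by
    conv_lhs => rw [e, Finset.sum_comm]
    rw [e, ← Finset.sum_neg_distrib]
    refine Finset.sum_congr rfl fun i _ => ?_
    rw [← Finset.sum_neg_distrib]
    refine Finset.sum_congr rfl fun j _ => ?_
    rw [h, io_anti, smul_neg]
  have e2 : (2 : ℝ) • dop (io.comp S) = 0 := by
    rw [two_smul]
    exact add_eq_zero_iff_eq_neg.2 e'
  exact (smul_eq_zero.1 e2).resolve_left two_ne_zero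

theorem Leg_sum {V : Type} [NormedAddCommGroup V] [NormedSpace ℝ V] [FiniteDimensional ℝ V]
    {N : ℕ} (p q : Fin N → V →L[ℝ] ℝ) (L : V →L[ℝ] V) :
    dop (∑ i, ((p i).comp L).smulRight (io ((q i).comp L))) =
      lmap L (∑ i, io (p i) * io (q i)) := by
  rw [map_sum, map_sum]
  simp only [dop_smulRight, map_mul, lmap_io]

theorem wt_eq_zero {r : ℝ} (hr : r ∉ Icc (0 : ℝ) 1) : wt r = 0 := by
  rcases not_and_or.1 hr with h | h
  · have : Real.smoothTransition =ᶠ[𝓝 r] fun _ => 0 := by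
      filter_upwards [Iio_mem_nhds (not_le.1 h)] with t ht using
        Real.smoothTransition.zero_of_nonpos (le_of_lt ht)
    rw [wt, this.deriv_eq, deriv_const]
  · have : Real.smoothTransition =ᶠ[𝓝 r] fun _ => 1 := by
      filter_upwards [Ioi_mem_nhds (not_le.1 h)] with t ht using
        Real.smoothTransition.one_of_one_le (le_of_lt ht)
    rw [wt, this.deriv_eq, deriv_const]

theorem integral_wt : ∫ r, wt r = 1 := by
  rw [← setIntegral_eq_integral_of_forall_compl_eq_zero fun r hr => wt_eq_zero hr,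
    integral_Icc_eq_integral_Ioc, ← intervalIntegral.integral_of_le zero_le_one]
  unfold wt
  rw [intervalIntegral.integral_deriv_eq_sub (fun t _ =>
    (Real.smoothTransition.contDiff (n := 1)).differentiable one_ne_zero t)
    (contDiff_wt.continuous.intervalIntegrable _ _)]
  simp

theorem VolC_int_log {ρ : ℝ} (hρ : 0 < ρ) : ∫ y in Ioi (0 : ℝ), y⁻¹ * wt (log (y * ρ)) = 1 := by
  have h := integral_image_eq_integral_abs_deriv_smul (s := univ) (f := Real.exp) (f' := Real.exp)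
    MeasurableSet.univ (fun x _ => (Real.hasDerivAt_exp x).hasDerivWithinAt)
    Real.exp_injective.injOn (fun y => y⁻¹ * wt (log (y * ρ)))
  rw [image_univ, Real.range_exp, Measure.restrict_univ] at h
  rw [h, ← integral_wt, ← integral_add_right_eq_self wt (log ρ)]
  refine integral_congr_ae (Eventually.of_forall fun x => ?_)
  simp only [Real.log_mul (Real.exp_pos x).ne' hρ.ne', Real.log_exp, smul_eq_mul,
    abs_of_pos (Real.exp_pos x)]
  field_simp

theorem radial {V : Type} [NormedAddCommGroup V] [InnerProductSpace ℝ V] [FiniteDimensional ℝ V]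
    [MeasurableSpace V] [BorelSpace V] {k : ℕ} (hk : Module.finrank ℝ V = 2 * k) (h1 : 1 ≤ k)
    {ρ : ℝ} (hρ : 0 < ρ) : Integrable (fun v : V => wt (log (‖v‖ * ρ)) / ‖v‖ ^ (2 * k)) ∧
      ∫ v : V, wt (log (‖v‖ * ρ)) / ‖v‖ ^ (2 * k) = 2 * k * π ^ k / k.factorial := by
  have : Nontrivial V := Module.nontrivial_of_finrank_pos (R := ℝ) (by omega)
  have hb : (volume : Measure V).real (Metric.ball 0 1) = π ^ k / k.factorial := by
    rw [Measure.real, InnerProductSpace.volume_ball_of_dim_even (k := k) hk 0 1]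
    simp only [ENNReal.ofReal_one, one_pow, one_mul]
    exact ENNReal.toReal_ofReal (by positivity)
  have h2 : ∫ y in Ioi (0 : ℝ), y ^ (2 * k - 1) • (wt (log (y * ρ)) / y ^ (2 * k)) = 1 := by
    rw [← VolC_int_log hρ]
    refine setIntegral_congr_fun measurableSet_Ioi fun y hy => ?_
    have hy0 : y ≠ 0 := ne_of_gt hy
    obtain ⟨m, hm⟩ : ∃ m, 2 * k = m + 1 := ⟨2 * k - 1, by omega⟩
    simp only [smul_eq_mul, hm, Nat.add_sub_cancel, pow_succ]
    field_simp
  have h3 : ∫ v : V, wt (log (‖v‖ * ρ)) / ‖v‖ ^ (2 * k) = 2 * k * π ^ k / k.factorial := by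
    rw [integral_fun_norm_addHaar volume (fun r : ℝ => wt (log (r * ρ)) / r ^ (2 * k)), hb, hk, h2]
    simp only [smul_eq_mul, nsmul_eq_mul]
    push_cast
    ring
  refine ⟨Integrable.of_integral_ne_zero ?_, h3⟩
  rw [h3]
  have : (0 : ℝ) < k := by exact_mod_cast h1
  positivity

theorem VolC_frame {V : Type} [NormedAddCommGroup V] [InnerProductSpace ℝ V]
    [FiniteDimensional ℝ V] (G : V →L[ℝ] V →L[ℝ] ℝ) (hs : ∀ u w, G u w = G w u)
    (hp : ∀ u, u ≠ 0 → 0 < G u u) : ∃ T : V →ₗ[ℝ] V, ∀ u w, G (T u) (T w) = inner ℝ u w := by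
  obtain ⟨b, hv⟩ := LinearMap.BilinForm.exists_orthogonal_basis (B := G.toLinearMap₁₂)
    ⟨fun u w => hs u w⟩
  have hb1 : ∀ i j, i ≠ j → G (b i) (b j) = 0 := fun i j hij => hv hij
  have hb2 : ∀ i, 0 < G (b i) (b i) := fun i => hp _ (b.ne_zero i)
  obtain ⟨e, he⟩ : ∃ e : Fin (Module.finrank ℝ V) → V, ∀ i, e i = (√(G (b i) (b i)))⁻¹ • b i :=
    ⟨_, fun _ => rfl⟩
  have he1 : ∀ i j, G (e i) (e j) = if i = j then 1 else 0 := fun i j => by
    simp only [he, map_smul, smul_apply, smul_eq_mul]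
    split_ifs with hij
    · subst hij
      have h1 := Real.mul_self_sqrt (hb2 i).le
      have h2 := (Real.sqrt_pos.2 (hb2 i)).ne'
      field_simp
      linarith
    · rw [hb1 i j hij, mul_zero, mul_zero]
  let J := (stdOrthonormalBasis ℝ V).repr
  refine ⟨Fintype.linearCombination ℝ e ∘ₗ (WithLp.linearEquiv 2 ℝ _).toLinearMap ∘ₗ
    J.toLinearEquiv.toLinearMap, fun y y' => ?_⟩
  show G (∑ i, J y i • e i) (∑ i, J y' i • e i) = _
  rw [← J.inner_map_map]
  simp only [map_sum, map_smul, sum_apply, smul_apply, he1, smul_eq_mul, mul_ite, mul_one,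
    mul_zero, Finset.sum_ite_eq', Finset.mem_univ, if_true, PiLp.inner_apply]
  exact Finset.sum_congr rfl fun i _ => by simp

section Pair
variable {A : Type} [NormedAddCommGroup A] [InnerProductSpace ℝ A] [FiniteDimensional ℝ A]

theorem det_block (L : A × A →L[ℝ] A × A) (h : ∀ u, L (0, u) = (0, (L (u, 0)).1)) : 0 ≤ L.det := by
  classical
  let b := Module.finBasis ℝ A
  have hM : LinearMap.toMatrix (b.prod b) (b.prod b) (L : A × A →ₗ[ℝ] A × A) =
      Matrix.fromBlocks (Matrix.of fun i j => b.repr (L (b j, 0)).1 i) 0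
        (Matrix.of fun i j => b.repr (L (b j, 0)).2 i)
        (Matrix.of fun i j => b.repr (L (b j, 0)).1 i) := by
    ext (i | i) (j | j)
    · simp [LinearMap.toMatrix_apply]
    · simp [LinearMap.toMatrix_apply, h]
    · simp [LinearMap.toMatrix_apply]
    · simp [LinearMap.toMatrix_apply, h]
  rw [ContinuousLinearMap.det, ← LinearMap.det_toMatrix (b.prod b), hM,
    Matrix.det_fromBlocks_zero₁₂]
  exact mul_self_nonneg _

/-- The complex structure of the target. -/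
def Jc (w : A × A) : A × A := (-w.2, w.1)

/-- The Euclidean norm of the target. -/
def nr (w : A × A) : ℝ := √(‖w.1‖ ^ 2 + ‖w.2‖ ^ 2)

/-- Half the standard symplectic form. -/
def B0 (A : Type) [NormedAddCommGroup A] [InnerProductSpace ℝ A] : A × A →L[ℝ] A × A →L[ℝ] ℝ :=
  (1 / 2 : ℝ) • ((innerSL ℝ (E := A)).bilinearComp (ContinuousLinearMap.fst ℝ _ _)
      (ContinuousLinearMap.snd ℝ _ _) -
    (innerSL ℝ (E := A)).bilinearComp (ContinuousLinearMap.snd ℝ _ _)
      (ContinuousLinearMap.fst ℝ _ _))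

theorem B0_apply (w v : A × A) : B0 A w v = 1 / 2 * (inner ℝ w.1 v.2 - inner ℝ w.2 v.1) := rfl

/-- The rotation invariant primitive of the symplectic form. -/
def lam0 (A : Type) [NormedAddCommGroup A] [InnerProductSpace ℝ A] [FiniteDimensional ℝ A] : Om (⊤ : Opens (A × A)) := one1 (B0 A) (B0 A).contDiff.contDiffOn

/-- The radial weight. -/
def rw0 (k : ℕ) (r : ℝ) : ℝ := wt (Real.log r) / r ^ k

theorem Leg_aux (A : Type) [NormedAddCommGroup A] [InnerProductSpace ℝ A] [FiniteDimensional ℝ A] : ∃ c : ℝ, c ≠ 0 ∧ ∀ D : A × A →L[ℝ] A →L[ℝ] ℝ,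
    ∀ B : A × A →L[ℝ] A × A →L[ℝ] ℝ, (∀ δ δ', B δ δ' = D δ δ'.1) →
      top (dop (io.comp B) ^ Module.finrank ℝ A) = c * bdet (D.comp (ContinuousLinearMap.inr ℝ _ _)) := by
  classical
  let b := stdOrthonormalBasis ℝ A
  let p : Fin (Module.finrank ℝ A) → A × A →L[ℝ] ℝ := fun i =>
    (innerSL ℝ (b i)).comp (ContinuousLinearMap.snd ℝ _ _)
  let q : Fin (Module.finrank ℝ A) → A × A →L[ℝ] ℝ := fun i =>
    (innerSL ℝ (b i)).comp (ContinuousLinearMap.fst ℝ _ _)
  have hz : ∀ u : A, (∀ i, inner ℝ (b i) u = 0) → u = 0 := fun u hu => by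
    rw [← b.sum_repr' u]
    simp [hu]
  refine ⟨_, top_sum_pow_ne (by rw [Module.finrank_prod, two_mul]) p q
    fun v h1 h2 => Prod.ext (hz _ h2) (hz _ h1), fun D B hB => ?_⟩
  let L : A × A →L[ℝ] A × A := (ContinuousLinearMap.fst ℝ _ _).prod
    (∑ i, (D.flip (b i)).smulRight (b i))
  have hL : ∀ δ i, inner ℝ (b i) (L δ).2 = D δ (b i) := fun δ i => by
    simp only [L, ContinuousLinearMap.prod_apply, sum_apply,
      ContinuousLinearMap.smulRight_apply, ContinuousLinearMap.flip_apply]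
    exact b.orthonormal.inner_right_fintype _ i
  have e1 : dop (io.comp B) = lmap L (∑ i, io (p i) * io (q i)) := by
    have : io.comp B = ∑ i, ((p i).comp L).smulRight (io ((q i).comp L)) := by
      refine ContinuousLinearMap.ext fun δ => ?_
      simp only [ContinuousLinearMap.comp_apply, sum_apply,
        ContinuousLinearMap.smulRight_apply, ← map_smul, ← map_sum]
      refine congrArg io (ContinuousLinearMap.ext fun δ' => ?_)
      rw [hB, ← b.sum_repr' δ'.1, map_sum, sum_apply]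
      refine Finset.sum_congr rfl fun i _ => ?_
      rw [map_smul, ← hL, smul_eq_mul, mul_comm]
      rfl
    rw [this, Leg_sum]
  have e2 : L.det = bdet (D.comp (ContinuousLinearMap.inr ℝ _ _)) := by
    have hM : LinearMap.toMatrix (b.toBasis.prod b.toBasis) (b.toBasis.prod b.toBasis)
        (L : A × A →ₗ[ℝ] A × A) = Matrix.fromBlocks 1 0 (Matrix.of fun i j => D (b j, 0) (b i))
          (Matrix.of fun i j => D (0, b i) (b j)).transpose := by
      ext (i | i) (j | j)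
      · simp [LinearMap.toMatrix_apply, L, Matrix.one_apply]
      · simp [LinearMap.toMatrix_apply, L]
      · simp [LinearMap.toMatrix_apply, OrthonormalBasis.repr_apply_apply, hL]
      · simp [LinearMap.toMatrix_apply, OrthonormalBasis.repr_apply_apply, hL]
    rw [ContinuousLinearMap.det, ← LinearMap.det_toMatrix (b.toBasis.prod b.toBasis), hM,
      Matrix.det_fromBlocks_zero₁₂, Matrix.det_one, one_mul, Matrix.det_transpose]
    rfl
  rw [e1, ← map_pow, top_lmap, e2, mul_comm]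

theorem legendre (hA : Even (Module.finrank ℝ A)) : ∃ c : ℝ, c ≠ 0 ∧ top (dop (io.comp (B0 A)) ^ Module.finrank ℝ A) = c ∧
    ∀ (D : A × A →L[ℝ] A →L[ℝ] ℝ) (B : A × A →L[ℝ] A × A →L[ℝ] ℝ), (∀ δ δ', B δ δ' = D δ δ'.1) →
      top (dop (io.comp B) ^ Module.finrank ℝ A) = c * bdet (D.comp (ContinuousLinearMap.inr ℝ _ _)) := by
  obtain ⟨c, hc, h⟩ := Leg_aux A
  refine ⟨c, hc, ?_, h⟩
  let B1 : A × A →L[ℝ] A × A →L[ℝ] ℝ := (innerSL ℝ (E := A)).bilinearComp
    (ContinuousLinearMap.snd ℝ _ _) (ContinuousLinearMap.fst ℝ _ _)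
  have hB1 : ∀ u v, B1 u v = inner ℝ u.2 v.1 := fun _ _ => rfl
  have h1 := h ((innerSL ℝ (E := A)).comp (ContinuousLinearMap.snd ℝ _ _)) B1 fun _ _ => rfl
  have h2 : ((innerSL ℝ (E := A)).comp (ContinuousLinearMap.snd ℝ A A)).comp
      (ContinuousLinearMap.inr ℝ _ _) = inL A :=
    ContinuousLinearMap.ext fun _ => rfl
  have h3 : dop (io.comp (B0 A + B1)) = 0 := dop_symm fun u v => by
    simp only [add_apply, B0_apply, hB1]
    rw [real_inner_comm u.1 v.2, real_inner_comm u.2 v.1]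
    ring
  rw [ContinuousLinearMap.comp_add, map_add, add_eq_zero_iff_eq_neg] at h3
  rw [h2, bdet_inner, mul_one] at h1
  rw [h3, Even.neg_pow hA, h1]

theorem nr_nonneg (w : A × A) : 0 ≤ nr w := sqrt_nonneg _

theorem nr_sq (w : A × A) : nr w ^ 2 = ‖w.1‖ ^ 2 + ‖w.2‖ ^ 2 := sq_sqrt (by positivity)

theorem nr_smul {r : ℝ} (hr : 0 ≤ r) (w : A × A) : nr (r • w) = r * nr w := by
  rw [nr, nr, Prod.smul_fst, Prod.smul_snd, norm_smul, norm_smul, mul_pow, mul_pow, ← mul_add,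
    sqrt_mul (sq_nonneg _), Real.norm_eq_abs, sq_abs, sqrt_sq hr]

theorem nr_pos {w : A × A} (hw : w ≠ 0) : 0 < nr w := by
  refine sqrt_pos.2 (lt_of_le_of_ne (by positivity) fun e => hw ?_)
  have h1 : ‖w.1‖ ^ 2 = 0 := by nlinarith [sq_nonneg ‖w.1‖, sq_nonneg ‖w.2‖]
  have h2 : ‖w.2‖ ^ 2 = 0 := by nlinarith [sq_nonneg ‖w.1‖, sq_nonneg ‖w.2‖]
  exact Prod.ext (by simpa using h1) (by simpa using h2)

theorem nr_rot (t : ℝ) (w : A × A) : nr (cos t • w + sin t • Jc w) = nr w := by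
  simp only [nr, Jc, Prod.fst_add, Prod.snd_add, Prod.smul_fst, Prod.smul_snd, norm_add_sq_real,
    norm_smul, Real.norm_eq_abs, mul_pow, sq_abs, norm_neg, real_inner_smul_left,
    real_inner_smul_right, inner_neg_right, real_inner_comm w.1 w.2]
  congr 1
  linear_combination (‖w.1‖ ^ 2 + ‖w.2‖ ^ 2) * cos_sq_add_sin_sq t

theorem contDiffAt_nr {w : A × A} (hw : w ≠ 0) : ContDiffAt ℝ ∞ (nr : A × A → ℝ) w :=
  (((contDiff_norm_sq ℝ).comp contDiff_fst).add ((contDiff_norm_sq ℝ).comp contDiff_snd)).contDiffAt.sqrt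
    (sqrt_pos.1 (nr_pos hw)).ne'

theorem rw0_nonneg (k : ℕ) {r : ℝ} (hr : 0 ≤ r) : 0 ≤ rw0 k r :=
  div_nonneg (wt_nonneg _) (pow_nonneg hr k)

theorem rw0_meas (k : ℕ) : Measurable (rw0 k) :=
  (contDiff_wt.continuous.measurable.comp measurable_log).div (measurable_id.pow_const k)

variable [MeasurableSpace A] [BorelSpace A]

theorem int_target {k : ℕ} (hk : Module.finrank ℝ A = k) (h0 : 1 ≤ k) :
    Integrable (fun w : A × A => rw0 (2 * k) (nr w)) ∧
    ∫ w : A × A, rw0 (2 * k) (nr w) = 2 * k * π ^ k / k.factorial := by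
  obtain ⟨h1, h2⟩ := radial (V := WithLp 2 (A × A)) (k := k) (by
    rw [(WithLp.linearEquiv 2 ℝ _).finrank_eq, Module.finrank_prod, hk]
    ring) h0 one_pos
  simp only [mul_one] at h1 h2
  have hP := WithLp.volume_preserving_toLp A A
  have hE : MeasurableEmbedding (WithLp.toLp 2 : A × A → _) :=
    (MeasurableEquiv.toLp 2 _).measurableEmbedding
  have e : (fun w : A × A => rw0 (2 * k) (nr w)) =
      fun w : A × A => rw0 (2 * k) ‖WithLp.toLp 2 w‖ := by
    ext w
    rw [WithLp.prod_norm_eq_of_L2]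
    rfl
  rw [e]
  refine ⟨(hP.integrable_comp_emb hE (g := fun v => rw0 (2 * k) ‖v‖)).2 h1, ?_⟩
  rw [hP.integral_comp hE fun v => rw0 (2 * k) ‖v‖]
  exact h2

/-- The fibre integral of the weight. -/
theorem int_fibre {k : ℕ} (hk : Module.finrank ℝ A = 2 * k) (h0 : 1 ≤ k) (G : A →L[ℝ] A →L[ℝ] ℝ)
    (hs : ∀ u w, G u w = G w u) (hp : ∀ u, u ≠ 0 → 0 < G u u) :
    ∫⁻ u : A, ENNReal.ofReal (rw0 (2 * k) √(G u u) * bdet G) =
      ENNReal.ofReal (2 * k * π ^ k / k.factorial) * ENNReal.ofReal √(bdet G) := by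
  obtain ⟨T, hT⟩ := VolC_frame G hs hp
  have hdet : (LinearMap.det T) ^ 2 * bdet G = 1 := by
    have h1 := bdet_comp G (LinearMap.toContinuousLinearMap T)
    rw [LinearMap.det_toContinuousLinearMap] at h1
    rw [← h1, ← bdet_inner (V := A)]
    congr 1
    ext u w
    exact hT u w
  have hd0 : LinearMap.det T ≠ 0 := by
    intro e
    rw [e] at hdet
    simp at hdet
  have hsq : √(bdet G) = |(LinearMap.det T)⁻¹| := by
    rw [← Real.sqrt_sq_eq_abs, inv_pow, eq_inv_of_mul_eq_one_right hdet]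
  have hF : Measurable fun u : A => ENNReal.ofReal (rw0 (2 * k) √(G u u)) :=
    ((rw0_meas _).comp ((G.continuous.clm_apply continuous_id).sqrt).measurable).ennreal_ofReal
  have e : ∀ u : A, ENNReal.ofReal (rw0 (2 * k) √(G u u) * bdet G) =
      ENNReal.ofReal (rw0 (2 * k) √(G u u)) * ENNReal.ofReal √(bdet G) *
        ENNReal.ofReal √(bdet G) := fun u => by
    rw [mul_assoc, ← ENNReal.ofReal_mul (sqrt_nonneg _), Real.mul_self_sqrt (bdet_pos hs hp).le,
      ← ENNReal.ofReal_mul (rw0_nonneg _ (sqrt_nonneg _))]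
  simp only [e]
  rw [lintegral_mul_const _ (hF.mul_const _), lintegral_mul_const _ hF]
  congr 1
  rw [mul_comm, hsq, ← smul_eq_mul, ← lintegral_smul_measure,
    ← Measure.map_linearMap_addHaar_eq_smul_addHaar volume hd0,
    lintegral_map hF T.continuous_of_finiteDimensional.measurable]
  obtain ⟨h1, h2⟩ := radial (V := A) hk h0 one_pos
  simp only [mul_one] at h1 h2
  rw [← show ∫ v : A, rw0 (2 * k) ‖v‖ = _ from h2,
    ofReal_integral_eq_lintegral_ofReal (f := fun v : A => rw0 (2 * k) ‖v‖) h1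
      (Eventually.of_forall fun v => rw0_nonneg _ (norm_nonneg v))]
  refine lintegral_congr fun u => ?_
  rw [hT, real_inner_self_eq_norm_sq, Real.sqrt_sq (norm_nonneg _)]

end Pair

end Pool.Agent.Work.MP_8c604c_gt.OC
end
end

-- merged part: Pool.Agent.Work.MP_8c604c_gt.OC.Chg
section
/-!
Block C: forms on the punctured tangent bundle, their densities in the charts, change of chart.
-/

set_option maxSynthPendingDepth 3
set_option linter.unusedSectionVars false

open Set Filter Topology MeasureTheory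
open scoped ContDiff

noncomputable section
namespace Pool.Agent.Work.MP_8c604c_gt.OC

open O O.Model TopologicalSpace Lam Om

/-- The chart of the tangent bundle. -/
abbrev CH (d : ℕ) : Type := RF d × RF d

instance chHaar {d : ℕ} : (volume : Measure (CH d)).IsAddHaarMeasure :=
  Measure.prod.instIsAddHaarMeasure _ _

/-- Nonzero tangent vectors in the chart. -/
def U0 (d : ℕ) : Opens (CH d) := ⟨{y | y.2 ≠ 0}, isOpen_ne_fun continuous_snd continuous_const⟩

/-- Parameters of the scaling. -/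
def WB : Opens ℝ := ⟨Ioi 0, isOpen_Ioi⟩

variable {E : Type} [NormedAddCommGroup E] [InnerProductSpace ℝ E] [FiniteDimensional ℝ E] {d : ℕ}

/-- `OO` as an open set. -/
def UO (μ : Model E d) : Opens (E × E) := ⟨μ.OO, isOpen_OO⟩

/-- The scaling. -/
def actB (μ : Model E d) : Act WB (UO μ) where
  a := ⟨fun p => sc p.1 p.2, by unfold sc; fun_prop, fun _ hp => sc_mem_OO (ne_of_gt hp.1) hp.2⟩
  e := 1
  e_mem := (one_pos : (0 : ℝ) < 1)
  a_e := fun x _ => sc_one x

/-- The charts as smooth maps. -/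
def sec (μ : Model E d) (i : Fin (μ.N + 1)) : SMap (U0 d) (UO μ) :=
  ⟨μ.κ i, (contDiff_κ i).contDiffOn, fun _ hy => TT_OO (κ_TT i hy)⟩

variable {μ : Model E d} {g : Met E}

/-- The density of a form in a chart. -/
def den (i : Fin (μ.N + 1)) (γ : Om (UO μ)) (y : CH d) : ℝ := top (ev (pull (sec μ i) γ) y)

/-- The closed one-form dual to the scaling. -/
def sg (h : IsMetric μ g) : Om (UO μ) :=
  Om.d (fn (fun x => Real.smoothTransition (Real.log (spd g x)))
    (Real.smoothTransition.contDiff.comp_contDiffOn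
      (h.contDiffOn_spd.log fun _ hx => (h.spd_pos hx).ne')))

/-- The contact form. -/
def alF (h : IsMetric μ g) : Om (UO μ) := one1 (al g) h.contDiffOn_al

theorem actB_D (p v : ℝ × E × E) :
    fderiv ℝ (actB μ).a.toFun p v = (v.2.1, p.1 • v.2.2 + v.1 • p.2.2) := by
  have a1 := hasFDerivAt_fst (𝕜 := ℝ) (p := p)
  have b1 := (hasFDerivAt_snd (𝕜 := ℝ) (p := p)).fst
  have b2 := (hasFDerivAt_snd (𝕜 := ℝ) (p := p)).snd
  have h : fderiv ℝ (actB μ).a.toFun p = _ := (b1.prodMk (a1.smul b2)).fderiv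
  rw [h]
  rfl

theorem basic_horizontal {γ : Om (UO μ)} (h : γ ∈ (actB μ).Basic) {x : E × E} (hx : x ∈ μ.OO) :
    ctr ((0, x.2) : E × E) (ev γ x) = 0 := by
  have := (actB μ).horizontal h hx 1
  rw [actB_D] at this
  simpa using this

theorem alF_basic (h : IsMetric μ g) : alF h ∈ (actB μ).Basic := by
  refine (actB μ).one1_mem _ fun p hp x _ v => ?_
  rw [actB_D]
  change g x.1 (vel g (sc p x)) v.2.1 = g x.1 (vel g x) v.2.1
  rw [vel_sc hp]

theorem sg_one (h : IsMetric μ g) : IsOne (sg h) := (isFn_fn _ _).d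

theorem d_sg (h : IsMetric μ g) : Om.d (sg h) = 0 := d_d _

theorem ev_sg (h : IsMetric μ g) {x : E × E} (hx : x ∈ μ.OO) :
    ev (sg h) x = (wt (Real.log (spd g x)) / spd g x) • io (fderiv ℝ (spd g) x) := by
  have h1 : HasFDerivAt (spd g) (fderiv ℝ (spd g) x) x :=
    ((h.contDiffOn_spd.contDiffAt (isOpen_OO.mem_nhds hx)).differentiableAt (by simp)).hasFDerivAt
  have h2 : HasDerivAt Real.smoothTransition (wt (Real.log (spd g x))) (Real.log (spd g x)) :=
    ((Real.smoothTransition.contDiff (n := 1)).differentiable one_ne_zero _).hasDerivAt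
  have h3 := h2.comp_hasFDerivAt x (h1.log (h.spd_pos hx).ne')
  rw [sg, ev_d_fn _ _ hx, ← map_smul, div_eq_mul_inv, mul_smul]
  exact congrArg _ h3.fderiv

/-- The change of chart. -/
def tau (i j : Fin (μ.N + 1)) (y : CH d) : CH d := μ.σ j (μ.κ i y)

/-- Its domain. -/
def Dm (i j : Fin (μ.N + 1)) : Opens (CH d) :=
  ⟨{y | μ.χ i y.1 ∈ μ.W j ∧ y.2 ≠ 0},
    ((μ.W_open j).preimage ((μ.χ_smooth i).continuous.comp continuous_fst)).inter (U0 d).isOpen⟩

variable {i j : Fin (μ.N + 1)}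

theorem κ_tau {y : CH d} (hy : y ∈ Dm i j) : μ.κ j (tau i j y) = μ.κ i y := κσ (κ_TM i y) hy.1

theorem tau_mem {y : CH d} (hy : y ∈ Dm i j) : tau i j y ∈ Dm j i := by
  have h := κ_tau hy
  refine ⟨?_, fun e => (κ_TT i hy.2).2.2 ?_⟩
  · rw [show μ.χ j (tau i j y).1 = μ.χ i y.1 from congrArg Prod.fst h]
    exact μ.χ_mem i _
  · rw [← h, κ, e, map_zero]

theorem tau_tau {y : CH d} (hy : y ∈ Dm i j) : tau j i (tau i j y) = y := by
  rw [tau, κ_tau hy, σκ]

theorem contDiffOn_tau (i j : Fin (μ.N + 1)) : ContDiffOn ℝ ∞ (tau i j) (Dm i j) :=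
  (contDiffOn_σ j).comp (contDiff_κ i).contDiffOn fun _ hy => hy.1

theorem hasFDerivAt_tau {y : CH d} (hy : y ∈ Dm i j) :
    HasFDerivAt (tau i j) (fderiv ℝ (tau i j) y) y :=
  (((contDiffOn_tau i j).contDiffAt ((Dm i j).isOpen.mem_nhds hy)).differentiableAt
    (by simp)).hasFDerivAt

theorem det_tau {y : CH d} (hy : y ∈ Dm i j) : 0 ≤ (fderiv ℝ (tau i j) y).det := by
  have hd := hasFDerivAt_tau hy
  refine det_block _ fun u => ?_
  obtain ⟨a, b⟩ := y
  let M := (fderiv ℝ (μ.ρ j) (μ.χ i a)).comp (fderiv ℝ (μ.χ i) a)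
  have h1 := (hd.comp b (hasFDerivAt_prodMk_right a b)).unique
    ((hasFDerivAt_const (μ.ρ j (μ.χ i a)) b).prodMk M.hasFDerivAt)
  have h3 : HasFDerivAt (fun z => (tau i j (z, b)).1) M a :=
    (hasFDerivAt_ρ hy.1).comp a (hasFDerivAt_χ i a)
  have h2 := (hd.comp a (f := fun z => (z, b)) (hasFDerivAt_prodMk_left a b)).fst.unique h3
  exact (congrArg (fun L : RF d →L[ℝ] CH d => L u) h1).trans
    (Prod.ext rfl (congrArg (fun L : RF d →L[ℝ] RF d => L u) h2).symm)

theorem den_eq (γ : Om (UO μ)) {y : CH d} (hy : y ∈ Dm i j) :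
    den i γ y = (fderiv ℝ (tau i j) y).det * den j γ (tau i j y) := by
  let t : SMap (Dm i j) (U0 d) := ⟨tau i j, contDiffOn_tau i j, fun _ hz => (tau_mem hz).2⟩
  let s : SMap (Dm i j) (U0 d) := ⟨id, contDiffOn_id, fun _ hz => hz.2⟩
  have h1 := pull_congr (f := (sec μ j).comp t) (f' := (sec μ i).comp s) (fun _ hz => κ_tau hz) γ
  have h3 := congrArg (fun η => top (ev η y)) h1
  simp only [pull_comp, ev_pull t _ hy, ev_pull s _ hy, top_lmap] at h3
  have h4 : (fderiv ℝ s.toFun y).det = 1 := by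
    rw [show fderiv ℝ s.toFun y = ContinuousLinearMap.id ℝ _ from fderiv_id]
    exact LinearMap.det_id
  rw [h4, one_mul] at h3
  exact h3.symm

theorem den_zero (γ : Om (UO μ)) {y : CH d} (hy : y.2 = 0) : den i γ y = 0 := by
  rw [den, ev_of_not_mem _ (show y ∉ U0 d from fun h => h hy), map_zero]

theorem ae_W (i : Fin (μ.N + 1)) : ∀ᵐ y : CH d, μ.χ i y.1 ∈ μ.W 0 :=
  Measure.quasiMeasurePreserving_fst.ae (μ.null i)

theorem change {γ : Om (UO μ)} (hi : Integrable (den i γ))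
    (h0 : ∀ y : CH d, μ.χ 0 y.1 ∉ μ.W i → den 0 γ y = 0) :
    Integrable (den 0 γ) ∧ ∫ y, den 0 γ y = ∫ y, den i γ y := by
  have hm : MeasurableSet (Dm 0 i : Set (CH d)) := (Dm 0 i).isOpen.measurableSet
  have hd : ∀ y ∈ (Dm 0 i : Set (CH d)),
      HasFDerivWithinAt (tau 0 i) (fderiv ℝ (tau 0 i) y) (Dm 0 i) y := fun y hy =>
    (hasFDerivAt_tau hy).hasFDerivWithinAt
  have hj : InjOn (tau 0 i) (Dm 0 i) := fun y hy z hz e => by
    rw [← tau_tau hy, e, tau_tau hz]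
  have hI : tau 0 i '' (Dm 0 i) = Dm i 0 := by
    refine Subset.antisymm ?_ fun y hy => ⟨tau i 0 y, tau_mem hy, tau_tau hy⟩
    rintro _ ⟨y, hy, rfl⟩
    exact tau_mem hy
  have hE : EqOn (fun y => |(fderiv ℝ (tau 0 i) y).det| • den i γ (tau 0 i y)) (den 0 γ) (Dm 0 i) :=
    fun y hy => by
      rw [den_eq γ hy]
      simp only [abs_of_nonneg (det_tau hy), smul_eq_mul]
  have hz : ∀ y : CH d, y ∉ (Dm 0 i : Set (CH d)) → den 0 γ y = 0 := fun y hy => by
    by_cases h2 : y.2 = 0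
    · exact den_zero γ h2
    · exact h0 y fun h1 => hy ⟨h1, h2⟩
  have hz' : ∀ᵐ y : CH d, y ∉ (Dm i 0 : Set (CH d)) → den i γ y = 0 := by
    filter_upwards [ae_W i] with y hy h1
    exact den_zero γ (not_not.1 fun h2 => h1 ⟨hy, h2⟩)
  have h1 := (integrableOn_image_iff_integrableOn_abs_det_fderiv_smul volume hm hd hj (den i γ)).1
    hi.integrableOn
  have h2 := integral_image_eq_integral_abs_det_fderiv_smul volume hm hd hj (den i γ)
  rw [hI, setIntegral_congr_fun hm hE, setIntegral_eq_integral_of_ae_compl_eq_zero hz',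
    setIntegral_eq_integral_of_forall_compl_eq_zero hz] at h2
  exact ⟨(h1.congr_fun hE hm).integrable_of_forall_notMem_eq_zero hz, h2.symm⟩

end Pool.Agent.Work.MP_8c604c_gt.OC
end
end

-- merged part: Pool.Agent.Work.MP_8c604c_gt.OC.Sto
section
/-!
Block C: the theorem of Stokes on the unit tangent bundle; the contact volume does not depend on the connection form.
-/

set_option maxSynthPendingDepth 3
set_option linter.unusedSectionVars false

open Set Filter Topology MeasureTheory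
open scoped ContDiff Manifold

noncomputable section
namespace Pool.Agent.Work.MP_8c604c_gt.OC

open O O.Model TopologicalSpace Lam Om

variable {E : Type} [NormedAddCommGroup E] [InnerProductSpace ℝ E] [FiniteDimensional ℝ E] {d : ℕ}
  {μ : Model E d} {g : Met E}

/-- A partition of unity. -/
theorem exists_pu (μ : Model E d) : ∃ φ : Fin (μ.N + 1) → Om (UO μ), ∑ i, φ i = 1 ∧ ∀ i,
    ∃ K : Set E, IsClosed K ∧ K ⊆ μ.W i ∧ ∀ x ∈ μ.TT, x.1 ∉ K → ev (φ i) x = 0 := by
  obtain ⟨f, hf⟩ := SmoothPartitionOfUnity.exists_isSubordinate (I := 𝓘(ℝ, E)) μ.isCompact_M.isClosed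
    μ.W μ.W_open fun z hz => mem_iUnion.2 (μ.cover z hz.1 hz.2)
  refine ⟨fun i => fn (fun x => f i (μ.r x.1)) ((f i).contMDiff.contDiff.comp_contDiffOn
    (μ.smooth.comp contDiffOn_fst fun _ hx => hx.1)), Om.ext fun x hx => ?_,
    fun i => ⟨_, isClosed_tsupport _, hf i, fun x hx h => ?_⟩⟩
  · rw [sto_ev_sum, ev_one hx, Finset.sum_congr rfl fun i _ => ev_fn _ _ hx, ← map_sum,
      ← finsum_eq_sum_of_fintype, f.sum_eq_one (r_mem hx.1), map_one]
  · rw [ev_fn _ _ (TT_OO hx), hx.1.2, image_eq_zero_of_notMem_tsupport h, map_zero]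

theorem exists_cpt (h : IsMetric μ g) (i : Fin (μ.N + 1)) {K₀ : Set E} (h1 : IsClosed K₀)
    (h2 : K₀ ⊆ μ.W i) : ∃ K : Set (CH d), IsCompact K ∧ K ⊆ U0 d ∧ ∀ y : CH d, y.2 ≠ 0 →
      μ.χ i y.1 ∈ K₀ → Real.log (spd g (μ.κ i y)) ∈ Icc (0 : ℝ) 1 → y ∈ K := by
  have hc : ContinuousOn (spd g) μ.TM :=
    (((h.smooth.continuousOn.comp continuousOn_fst fun _ hx => hx.1.1).clm_apply
      continuousOn_snd).clm_apply continuousOn_snd).sqrt
  have hC := (h.isCompact_ball (Real.exp 1)).inter_right ((h1.preimage continuous_fst).inter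
    (hc.preimage_isClosed_of_isClosed μ.isClosed_TM (isClosed_Ici (a := 1))))
  refine ⟨_, hC.image_of_continuousOn ((contDiffOn_σ i).continuousOn.mono fun x hx => h2 hx.2.1),
    ?_, fun y hy hK hl => ?_⟩
  · rintro _ ⟨x, hx, rfl⟩ e
    have h3 := congrArg Prod.snd (κσ hx.1.1 (h2 hx.2.1))
    have h4 : 1 ≤ spd g x := hx.2.2.2
    rw [κ, e, map_zero] at h3
    rw [spd, ← show 0 = x.2 from h3, map_zero, Real.sqrt_zero] at h4
    exact absurd h4 (by norm_num)
  · have p := h.spd_pos (TT_OO (κ_TT i hy))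
    exact ⟨μ.κ i y, ⟨⟨κ_TM i y, (Real.log_le_iff_le_exp p).1 hl.2⟩, hK, κ_TM i y,
      (Real.log_nonneg_iff p).1 hl.1⟩, σκ i y⟩

theorem den_sum (γ : Fin (μ.N + 1) → Om (UO μ)) (y : CH d) :
    den 0 (∑ i, γ i) y = ∑ i, den 0 (γ i) y := by
  simp only [den, map_sum, sto_ev_sum]

theorem sto_dec (h : IsMetric μ g) (κ : Om (UO μ)) :
    ∃ γ : Fin (μ.N + 1) → Om (UO μ), sg h * κ = ∑ i, γ i ∧ ∀ i,
      (∃ K : Set (CH d), IsCompact K ∧ K ⊆ U0 d ∧ ∀ y ∉ K, ev (pull (sec μ i) (γ i)) y = 0) ∧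
      ∃ K : Set (CH d), IsClosed K ∧ (∀ y ∈ K, μ.χ 0 y.1 ∈ μ.W i) ∧
        ∀ y ∉ K, ev (pull (sec μ 0) (γ i)) y = 0 := by
  obtain ⟨φ, e, hφ⟩ := exists_pu μ
  refine ⟨fun i => sg h * (φ i * κ), by rw [← Finset.mul_sum, ← Finset.sum_mul, e, one_mul],
    fun i => ?_⟩
  obtain ⟨K₀, h1, h2, h3⟩ := hφ i
  have key : ∀ j, ∀ y : CH d, (y.2 ≠ 0 → μ.χ j y.1 ∈ K₀ → ev (sg h) (μ.κ j y) = 0) →
      ev (pull (sec μ j) (sg h * (φ i * κ))) y = 0 := fun j y hy => by
    by_cases hU : y ∈ U0 d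
    swap
    · exact ev_of_not_mem _ hU
    rw [ev_pull _ _ hU, ev_mul, ev_mul]
    show lmap _ (ev (sg h) (μ.κ j y) * (ev (φ i) (μ.κ j y) * _)) = 0
    by_cases h0 : μ.χ j y.1 ∈ K₀
    · rw [hy hU h0, zero_mul, map_zero]
    · rw [h3 _ (κ_TT j hU) h0, zero_mul, mul_zero, map_zero]
  obtain ⟨K, k1, k2, k3⟩ := exists_cpt h i h1 h2
  refine ⟨⟨K, k1, k2, fun y hy => key i y fun hU h0 => ?_⟩, _,
    h1.preimage ((μ.χ_smooth 0).continuous.comp continuous_fst), fun y hy => h2 hy,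
    fun y hy => key 0 y fun _ h0 => absurd h0 hy⟩
  rw [ev_sg h (TT_OO (κ_TT i hU)), wt_eq_zero fun k => hy (k3 y hU h0 k), zero_div, zero_smul]

theorem integrable_den (h : IsMetric μ g) (κ : Om (UO μ)) : Integrable (den 0 (sg h * κ)) := by
  obtain ⟨γ, e, hγ⟩ := sto_dec h κ
  rw [e, funext (den_sum γ)]
  refine integrable_finsetSum _ fun i _ => ?_
  obtain ⟨⟨K, k1, k2, k3⟩, K', -, k5, k6⟩ := hγ i
  exact (change (integrable_top volume _ k1 k2 k3) fun y hy => by
    rw [den, k6 y fun k => hy (k5 y k), map_zero]).1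

theorem int_den_d (h : IsMetric μ g) (κ : Om (UO μ)) : ∫ y, den 0 (sg h * Om.d κ) y = 0 := by
  obtain ⟨γ, e, hγ⟩ := sto_dec h κ
  have e1 : sg h * Om.d κ = ∑ i, Om.d (-γ i) := by
    rw [← map_sum, Finset.sum_neg_distrib, ← e, map_neg, d_mul, d_sg, zero_mul, zero_add,
      (sg_one h).inv, neg_mul, neg_neg]
  have key : ∀ i, Integrable (den 0 (Om.d (-γ i))) ∧ ∫ y, den 0 (Om.d (-γ i)) y = 0 := fun i => by
    obtain ⟨⟨K, k1, k2, k3⟩, K', k4, k5, k6⟩ := hγ i
    have k7 : ∀ y ∉ K, ev (pull (sec μ i) (-γ i)) y = 0 := fun y hy => by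
      rw [map_neg, Form_neg, k3 y hy, neg_zero]
    have e2 : ∀ j, den j (Om.d (-γ i)) = fun y => top (ev (Om.d (pull (sec μ j) (-γ i))) y) := fun j => by
      rw [d_pull]; rfl
    have := change (γ := Om.d (-γ i)) (i := i)
      (e2 i ▸ integrable_top volume _ k1 k2 (supp_d _ k1.isClosed k7)) fun y hy => by
        rw [e2 0]
        exact (congrArg top (supp_d _ k4 (fun y hy => by rw [map_neg, Form_neg, k6 y hy, neg_zero]) y
          fun k => hy (k5 y k))).trans (map_zero _)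
    exact ⟨this.1, by rw [this.2, e2]; exact stokes volume _ k1 k2 k7⟩
  rw [e1, funext (den_sum _), integral_finsetSum _ fun i _ => (key i).1]
  exact Finset.sum_eq_zero fun i _ => (key i).2

theorem hasFDerivAt_κ (i : Fin (μ.N + 1)) (y : CH d) :
    HasFDerivAt (μ.κ i) (fderiv ℝ (μ.κ i) y) y :=
  ((contDiff_κ i).differentiable (by simp) y).hasFDerivAt

theorem Dκ_fst (i : Fin (μ.N + 1)) (y δ : CH d) :
    (fderiv ℝ (μ.κ i) y δ).1 = fderiv ℝ (μ.χ i) y.1 δ.1 :=
  congrArg (fun L : CH d →L[ℝ] E => L δ) ((hasFDerivAt_κ i y).fst.unique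
    ((hasFDerivAt_χ i y.1).comp y hasFDerivAt_fst))

theorem Dκ_rad (i : Fin (μ.N + 1)) (y : CH d) : fderiv ℝ (μ.κ i) y (0, y.2) = (0, (μ.κ i y).2) :=
  congrArg (fun L : RF d →L[ℝ] E × E => L y.2)
    (((hasFDerivAt_κ i y).comp y.2 (f := fun w => (y.1, w)) (hasFDerivAt_prodMk_right y.1 y.2)).unique
      ((hasFDerivAt_const (μ.χ i y.1) y.2).prodMk (fderiv ℝ (μ.χ i) y.1).hasFDerivAt))

theorem Dκ_surj (i : Fin (μ.N + 1)) (y : CH d) {v : E × E} (hv : μ.DR (μ.κ i y) v = v) :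
    ∃ ξ, fderiv ℝ (μ.κ i) y ξ = v := by
  have hT := κ_TM i y
  have hW : (μ.κ i y).1 ∈ μ.W i := μ.χ_mem i _
  have h1 := hasFDerivAt_R hT.1.1
  have h2 : HasFDerivAt (μ.σ i) (fderiv ℝ (μ.σ i) (μ.κ i y)) (μ.R (μ.κ i y)) := by
    rw [R_of_TM hT]
    exact (((contDiffOn_σ i).contDiffAt (((μ.W_open i).preimage continuous_fst).mem_nhds
      hW)).differentiableAt (by simp)).hasFDerivAt
  have h3 : HasFDerivAt (μ.κ i) (fderiv ℝ (μ.κ i) y) (μ.σ i (μ.R (μ.κ i y))) := by
    rw [R_of_TM hT, σκ]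
    exact hasFDerivAt_κ i y
  have h4 := (h3.comp (μ.κ i y) (f := μ.σ i ∘ μ.R) (h2.comp _ h1)).unique (h1.congr_of_eventuallyEq (by
    filter_upwards [continuous_fst.continuousAt.eventually
      (χρ_r (i := i) hT.1.1 (hT.1.2.symm ▸ hW))] with x hx using κσ (R_mem hx.1) hx.2.1))
  exact ⟨_, (congrArg (fun L : E × E →L[ℝ] E × E => L v) h4).trans hv⟩

theorem den_apply (γ : Om (UO μ)) {y : CH d} (hy : y.2 ≠ 0) :
    den 0 γ y = top (lmap (fderiv ℝ (μ.κ 0) y) (ev γ (μ.κ 0 y))) := by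
  rw [den, ev_pull _ _ (show y ∈ U0 d from hy)]
  rfl

theorem den_add (γ γ' : Om (UO μ)) (y : CH d) : den 0 (γ + γ') y = den 0 γ y + den 0 γ' y := by
  rw [den, den, den, map_add, ev_add, map_add]

theorem conn_ne {y : CH d} (hy : y.2 ≠ 0) : ((0, y.2) : CH d) ≠ 0 :=
  fun e => hy (congrArg Prod.snd e)

theorem conn_rad {γ : Om (UO μ)} (h : γ ∈ (actB μ).Basic) {y : CH d} (hy : y.2 ≠ 0) :
    ctr ((0, y.2) : CH d) (lmap (fderiv ℝ (μ.κ 0) y) (ev γ (μ.κ 0 y))) = 0 := by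
  rw [ctr_lmap, Dκ_rad, basic_horizontal h (TT_OO (κ_TT 0 hy)), map_zero]

theorem den_basic {γ : Om (UO μ)} (h : γ ∈ (actB μ).Basic) (y : CH d) : den 0 γ y = 0 := by
  by_cases hy : y.2 = 0
  · exact den_zero γ hy
  · rw [den_apply γ hy]
    exact top_eq_zero_of_ctr (conn_ne hy) (conn_rad h hy)

theorem den_hor {θ γ : Om (UO μ)} (hθ : IsOne θ) (h : γ ∈ (actB μ).Basic)
    (h' : ∀ x ∈ μ.TT, ∃ v : E × E, μ.DR x v = v ∧ v.1 ≠ 0 ∧ ctr v (ev γ x) = 0) (y : CH d) :
    den 0 (θ * γ) y = 0 := by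
  by_cases hy : y.2 = 0
  · exact den_zero _ hy
  obtain ⟨v, h0, h1, h2⟩ := h' _ (κ_TT 0 hy)
  obtain ⟨ξ, rfl⟩ := Dκ_surj 0 y h0
  obtain ⟨φ, hφ⟩ := hθ _ (TT_OO (κ_TT 0 hy))
  let S : Submodule ℝ (CH d) :=
    LinearMap.ker (ctr.flip (lmap (fderiv ℝ (μ.κ 0) y) (ev γ (μ.κ 0 y)))).toLinearMap
  have hS (u : CH d) : u ∈ S ↔ ctr u (lmap (fderiv ℝ (μ.κ 0) y) (ev γ (μ.κ 0 y))) = 0 := Iff.rfl
  have hlt : Submodule.span ℝ {((0, y.2) : CH d)} < S := by
    refine lt_of_le_of_ne ((Submodule.span_singleton_le_iff_mem _ _).2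
      ((hS _).2 (conn_rad h hy))) fun e => h1 ?_
    have h5 : ξ ∈ Submodule.span ℝ {((0, y.2) : CH d)} :=
      e ▸ (hS ξ).2 (by rw [ctr_lmap, h2, map_zero])
    obtain ⟨r, hr⟩ := Submodule.mem_span_singleton.1 h5
    rw [Dκ_fst, ← hr]
    simp
  have h6 := Submodule.finrank_lt_finrank_of_lt hlt
  rw [finrank_span_singleton (conn_ne hy)] at h6
  have h7 := top_horizontal (fun u hu => (hS u).1 hu) [φ.comp (fderiv ℝ (μ.κ 0) y)] h6
  rw [den_apply _ hy, ev_mul, hφ, map_mul, lmap_io]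
  simpa using h7

theorem conn_indep (h : IsMetric μ g) {a a' : Om (UO μ)} (o : IsOne a) (o' : IsOne a')
    (b : a ∈ (actB μ).Basic) (b' : a' ∈ (actB μ).Basic)
    (hX : ∀ x ∈ μ.TT, ∃ v : E × E, μ.DR x v = v ∧ v.1 ≠ 0 ∧ ctr v (ev a x) = 1 ∧
      ctr v (ev a' x) = 1 ∧ ctr v (ev (Om.d a) x) = 0 ∧ ctr v (ev (Om.d a') x) = 0) (m : ℕ) :
    ∫ y, den 0 (sg h * (a' * Om.d a' ^ m)) y = ∫ y, den 0 (sg h * (a * Om.d a ^ m)) y := by
  have e := (actB μ).d_mem b
  have e' := (actB μ).d_mem b'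
  have hR : ∑ i ∈ Finset.range m, Om.d a' ^ i * Om.d a ^ (m - 1 - i) ∈ (actB μ).Basic :=
    sum_mem fun i _ => mul_mem (pow_mem e' _) (pow_mem e _)
  have h0 := den_hor (sg_one h) (mul_mem (sub_mem b' b) (add_mem (pow_mem e' m) (mul_mem e hR)))
    fun x hx => by
      obtain ⟨v, h0, h1, h2, h3, h4, h5⟩ := hX x hx
      have k : Om.d a ∈ connK (U := UO μ) (TT_OO hx) v := h4
      have k' : Om.d a' ∈ connK (U := UO μ) (TT_OO hx) v := h5
      have kb : a' - a ∈ connK (U := UO μ) (TT_OO hx) v := by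
        change ctr v (ev (a' - a) x) = 0
        rw [ev_sub, map_sub, h2, h3, sub_self]
      exact ⟨v, h0, h1, mul_mem kb (add_mem (pow_mem k' m) (mul_mem k
        (sum_mem fun i _ => mul_mem (pow_mem k' _) (pow_mem k _))))⟩
  have h1 := integral_add (integrable_den h (a' * Om.d a' ^ m)) (integrable_den h (Om.d (a * ((a' - a) *
    ∑ i ∈ Finset.range m, Om.d a' ^ i * Om.d a ^ (m - 1 - i)))))
  rw [int_den_d h, add_zero] at h1
  rw [← h1]
  refine integral_congr_ae (Eventually.of_forall fun y => ?_)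
  beta_reduce
  rw [← den_add, ← mul_add, conn_id o o' m, mul_add, den_add, h0, add_zero]

end Pool.Agent.Work.MP_8c604c_gt.OC
end
end
end

-- merged part: Pool.Agent.Work.MP_8c604c_gt.OC.Main
section
-- merged part: Pool.Agent.Work.MP_8c604c_gt.C.Area
section
/-!
The area formula with signs: a bound for the signed number of preimages bounds the integral of the Jacobian.
-/

open Set Filter Topology MeasureTheory
open scoped ContDiff

noncomputable section
namespace Pool.Agent.Work.MP_8c604c_gt.C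

variable {V : Type} [NormedAddCommGroup V] [NormedSpace ℝ V] [FiniteDimensional ℝ V]
  [MeasurableSpace V] [BorelSpace V]

theorem exists_pieces {U : Set V} (hU : IsOpen U) {f : V → V} (hf : ContDiffOn ℝ 1 f U) :
    ∃ (A : ℕ → Set V) (ε : ℕ → SignType), (∀ k, MeasurableSet (A k)) ∧
      Pairwise (Function.onFun Disjoint A) ∧ ⋃ k, A k = {y | y ∈ U ∧ (fderiv ℝ f y).det ≠ 0} ∧
      (∀ k, InjOn f (A k)) ∧ ∀ k, ∀ y ∈ A k, SignType.sign (fderiv ℝ f y).det = ε k := by
  have := FiniteDimensional.complete ℝ V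
  let O : Set (Set V) := {W | IsOpen W ∧ W ⊆ {y | y ∈ U ∧ (fderiv ℝ f y).det ≠ 0} ∧ InjOn f W ∧
    ∃ ε, ∀ y ∈ W, SignType.sign (fderiv ℝ f y).det = ε}
  obtain ⟨T, hT, hO, e⟩ := TopologicalSpace.isOpen_sUnion_countable O fun W h => h.1
  obtain ⟨W, hW⟩ := (hT.insert ∅).exists_eq_range (insert_nonempty _ _)
  have h1 : ∀ k, W k ∈ O := fun k => by
    rcases (hW ▸ mem_range_self k : W k ∈ insert ∅ T) with h | h
    · rw [h]
      exact ⟨isOpen_empty, empty_subset _, injOn_empty _, 0, fun _ h => h.elim⟩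
    · exact hO h
  choose ε hε using fun k => (h1 k).2.2.2
  refine ⟨disjointed W, ε, MeasurableSet.disjointed fun k => (h1 k).1.measurableSet,
    disjoint_disjointed W, ?_, fun k => (h1 k).2.2.1.mono (disjointed_subset W k),
    fun k y hy => hε k y (disjointed_subset W k hy)⟩
  rw [iUnion_disjointed, ← sUnion_range, ← hW, sUnion_insert, empty_union, e]
  refine Subset.antisymm (sUnion_subset fun W h => h.2.1) fun y hy => ?_
  have h2 : ContDiffAt ℝ 1 f y := hf.contDiffAt (hU.mem_nhds hy.1)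
  have h3 : HasStrictFDerivAt f
      ((fderiv ℝ f y).toContinuousLinearEquivOfDetNeZero hy.2 : V →L[ℝ] V) y := by
    rw [ContinuousLinearMap.coe_toContinuousLinearEquivOfDetNeZero]
    exact h2.hasStrictFDerivAt one_ne_zero
  have h4 : ContinuousAt (fun y => SignType.sign (fderiv ℝ f y).det) y :=
    (continuousAt_sign_of_ne_zero hy.2).comp (f := fun y => (fderiv ℝ f y).det)
      (ContinuousLinearMap.continuous_det.continuousAt.comp
        ((hf.continuousOn_fderiv_of_isOpen hU le_rfl).continuousAt (hU.mem_nhds hy.1)))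
  obtain ⟨W, h5, h6, h7⟩ := mem_nhds_iff.1 (inter_mem (inter_mem (hU.mem_nhds hy.1)
    (h4.eventually_mem (s := {SignType.sign (fderiv ℝ f y).det}) ((isOpen_discrete _).mem_nhds rfl)))
    ((h3.toOpenPartialHomeomorph f).open_source.mem_nhds h3.mem_toOpenPartialHomeomorph_source))
  refine ⟨W, ⟨h6, fun x hx => ⟨(h5 hx).1.1, fun h => hy.2 ?_⟩,
    (h3.toOpenPartialHomeomorph f).injOn.mono fun x hx => (h5 hx).2, _, fun x hx => (h5 hx).1.2⟩, h7⟩
  have h8 : SignType.sign (fderiv ℝ f x).det = _ := (h5 hx).1.2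
  rwa [h, sign_zero, eq_comm, sign_eq_zero_iff] at h8

theorem area_bound (μ : Measure V) [μ.IsAddHaarMeasure] {U : Set V} (hU : IsOpen U) {f : V → V}
    (hf : ContDiffOn ℝ 1 f U) {φ : V → ℝ} (h0 : ∀ w, 0 ≤ φ w) (hφ : Integrable φ μ)
    (hi : IntegrableOn (fun y => φ (f y) * (fderiv ℝ f y).det) U μ) {C : ℝ} (hC0 : 0 ≤ C)
    (hC : ∀ᵐ w ∂μ, ∀ T : Finset V, (∀ y, y ∈ T ↔ y ∈ U ∧ f y = w) →
      (∀ y ∈ T, (fderiv ℝ f y).det ≠ 0) →
      |∑ y ∈ T, (SignType.sign (fderiv ℝ f y).det : ℝ)| ≤ C) :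
    |∫ y in U, φ (f y) * (fderiv ℝ f y).det ∂μ| ≤ C * ∫ w, φ w ∂μ := by
  classical
  obtain ⟨A, ε, a1, a2, a3, a4, a5⟩ := exists_pieces hU hf
  have hA : ∀ k, ∀ y ∈ A k, y ∈ U ∧ (fderiv ℝ f y).det ≠ 0 := fun k y hy =>
    (a3 ▸ mem_iUnion_of_mem k hy : y ∈ {y | y ∈ U ∧ (fderiv ℝ f y).det ≠ 0})
  have hd : ∀ y ∈ U, HasFDerivAt f (fderiv ℝ f y) y := fun y hy =>
    ((hf.contDiffAt (hU.mem_nhds hy)).differentiableAt one_ne_zero).hasFDerivAt
  have hd' : ∀ k, ∀ y ∈ A k, HasFDerivWithinAt f (fderiv ℝ f y) (A k) y := fun k y hy =>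
    (hd y (hA k y hy).1).hasFDerivWithinAt
  have m1 : ∀ k, MeasurableSet (f '' A k) := fun k =>
    measurable_image_of_fderivWithin (a1 k) (hd' k) (a4 k)
  have sU : ⋃ k, A k ⊆ U := iUnion_subset fun k y hy => (hA k y hy).1
  let F : ℕ → V → ℝ := fun k => (f '' A k).indicator fun w => (ε k : ℝ) * φ w
  have hF : ∀ k, ∀ y ∈ A k, ‖F k (f y)‖ = φ (f y) := fun k y hy => by
    simp only [F, indicator_of_mem (mem_image_of_mem f hy), ← a5 k y hy, norm_mul,
      Real.norm_of_nonneg (h0 _)]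
    rcases (hA k y hy).2.lt_or_gt with h | h
    · simp [sign_neg h]
    · simp [sign_pos h]
  have e1 : ∀ k, ∫ w, F k w ∂μ = ∫ y in A k, φ (f y) * (fderiv ℝ f y).det ∂μ := fun k => by
    rw [integral_indicator (m1 k), integral_image_eq_integral_abs_det_fderiv_smul μ (a1 k) (hd' k) (a4 k)]
    refine setIntegral_congr_fun (a1 k) fun y hy => ?_
    simp only [← a5 k y hy, smul_eq_mul]
    rw [← mul_assoc, mul_comm |_|, sign_mul_abs, mul_comm]
  have e2 : ∀ k, ∫ w, ‖F k w‖ ∂μ = ∫ y in A k, ‖φ (f y) * (fderiv ℝ f y).det‖ ∂μ := fun k => by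
    rw [← setIntegral_eq_integral_of_forall_compl_eq_zero (s := f '' A k) fun w hw => by
      simp only [F, indicator_of_notMem hw, norm_zero],
      integral_image_eq_integral_abs_det_fderiv_smul μ (a1 k) (hd' k) (a4 k)]
    refine setIntegral_congr_fun (a1 k) fun y hy => ?_
    simp only [hF k y hy, smul_eq_mul, norm_mul, Real.norm_of_nonneg (h0 _), Real.norm_eq_abs, mul_comm]
  have s1 := hasSum_integral_of_summable_integral_norm (μ := μ) (F := F)
    (fun k => (hφ.const_mul _).indicator (m1 k)) (by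
      simp only [e2]
      exact (hasSum_integral_iUnion a1 a2 (hi.mono_set sU).norm).summable)
  simp only [e1] at s1
  rw [setIntegral_eq_of_subset_of_forall_sdiff_eq_zero hU.measurableSet sU fun y hy => by
      have : (fderiv ℝ f y).det = 0 := by_contra fun h => hy.2 (a3 ▸ ⟨hy.1, h⟩)
      rw [this, mul_zero],
    (hasSum_integral_iUnion a1 a2 (hi.mono_set sU)).unique s1, ← integral_const_mul]
  rw [← Real.norm_eq_abs]
  refine norm_integral_le_of_norm_le (hφ.const_mul C) ?_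
  have n1 := addHaar_image_eq_zero_of_det_fderivWithin_eq_zero μ
    (s := {y | y ∈ U ∧ (fderiv ℝ f y).det = 0}) (fun y hy => (hd y hy.1).hasFDerivWithinAt)
    fun y hy => hy.2
  filter_upwards [hC, measure_eq_zero_iff_ae_notMem.1 n1] with w hw hr
  by_cases hs : Summable fun k => F k w
  swap
  · rw [tsum_eq_zero_of_not_summable hs, norm_zero]
    exact mul_nonneg hC0 (h0 w)
  rcases (h0 w).eq_or_lt with hz | hz
  · simp [F, indicator_apply, ← hz]
  have r1 : ∀ y ∈ U, f y = w → ∃ k, y ∈ A k := fun y hy e =>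
    mem_iUnion.1 (a3 ▸ ⟨hy, fun h => hr ⟨y, ⟨hy, h⟩, e⟩⟩)
  have f1 : {y | y ∈ U ∧ f y = w}.Finite := by
    have f2 := eventually_cofinite.1 (hs.tendsto_cofinite_zero.norm.eventually_lt_const
      (show ‖(0 : ℝ)‖ < φ w by rwa [norm_zero]))
    refine (f2.biUnion (t := fun k => A k ∩ f ⁻¹' {w}) fun k _ => Subsingleton.finite
      fun y hy y' hy' => a4 k hy.1 hy'.1 (hy.2.trans hy'.2.symm)).subset fun y hy => ?_
    obtain ⟨k, hk⟩ := r1 y hy.1 hy.2
    exact mem_biUnion (x := k) (by rw [mem_ofPred, ← hy.2, hF k y hk]; exact lt_irrefl _) ⟨hk, hy.2⟩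
  have t1 : ∀ y, y ∈ f1.toFinset ↔ y ∈ U ∧ f y = w := fun y => f1.mem_toFinset
  have s2 : HasSum (fun k => F k w)
      (∑ y ∈ f1.toFinset, (SignType.sign (fderiv ℝ f y).det : ℝ) * φ w) := by
    convert hasSum_sum (s := f1.toFinset) (f := fun y k => (A k).indicator
      (fun y => (SignType.sign (fderiv ℝ f y).det : ℝ) * φ w) y) fun y hy => ?_ using 2 with k
    · by_cases hk : w ∈ f '' A k
      · obtain ⟨y, hy, e⟩ := id hk
        rw [Finset.sum_eq_single_of_mem y ((t1 y).2 ⟨(hA k y hy).1, e⟩) fun y' hy' ne =>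
          indicator_of_notMem (fun h => ne (a4 k h hy (((t1 y').1 hy').2.trans e.symm))) _,
          indicator_of_mem hy, a5 k y hy]
        exact indicator_of_mem hk _
      · rw [Finset.sum_eq_zero fun y hy => indicator_of_notMem
          (fun h => hk ⟨y, h, ((t1 y).1 hy).2⟩) _]
        exact indicator_of_notMem hk _
    · obtain ⟨k, hk⟩ := r1 y ((t1 y).1 hy).1 ((t1 y).1 hy).2
      rw [← indicator_of_mem hk (fun y => (SignType.sign (fderiv ℝ f y).det : ℝ) * φ w)]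
      exact hasSum_single k fun j hj => indicator_of_notMem
        (fun h => disjoint_left.1 (a2 hj) h hk) _
  rw [s2.tsum_eq, ← Finset.sum_mul, norm_mul, Real.norm_of_nonneg hz.le]
  refine mul_le_mul_of_nonneg_right (hw _ t1 fun y hy => ?_) hz.le
  obtain ⟨k, hk⟩ := r1 y ((t1 y).1 hy).1 ((t1 y).1 hy).2
  exact (hA k y hk).2

end Pool.Agent.Work.MP_8c604c_gt.C
end
end

-- merged part: Pool.Agent.Work.MP_8c604c_gt.OC.Pts
section
/-!
Block C: the two connection forms and their densities in the chart.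
-/

set_option maxSynthPendingDepth 3
set_option linter.unusedSectionVars false

open Set Filter Topology MeasureTheory
open scoped ContDiff

noncomputable section
namespace Pool.Agent.Work.MP_8c604c_gt.OC

open O O.Model TopologicalSpace Lam Om

variable {E : Type} [NormedAddCommGroup E] [InnerProductSpace ℝ E] [FiniteDimensional ℝ E] {d : ℕ}

/-- A map to the unit sphere that the geodesic field rotates with speed two. -/
structure FD (μ : Model E d) (g : Met E) where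
  f : E × E → CH d
  f_smooth : ContDiffOn ℝ ∞ f μ.OO
  f_inv : ∀ m, 0 < m → ∀ x ∈ μ.OO, f (sc m x) = f x
  f_unit : ∀ x ∈ μ.OO, nr (f x) = 1
  gen : ∀ x ∈ μ.TT, ∃ v, μ.DR x v = v ∧ v.1 = vel g x ∧ (∀ δ, om g x v δ = 0) ∧
    fderiv ℝ f x v = (2 : ℝ) • Jc (f x)

variable {μ : Model E d} {g : Met E}

/-- The geodesic field. -/
theorem exists_gen (G : Geo μ g) (h : IsMetric μ g) {x : E × E} (hx : x ∈ μ.TT) :
    ∃ v, HasDerivAt (fun t => G.psi t x) v 0 ∧ μ.DR x v = v ∧ v.1 = vel g x ∧ ∀ δ, om g x v δ = 0 := by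
  have ho := TT_OO hx
  have h0 := G.psi_zero' hx
  have h1 := jac_fst ((jac_at isOpen_OO (G.contDiffOn_psi h) 0 ho).differentiableAt (by simp))
  have h2 := G.hasDerivAt_Z h 0 ho
  rw [h0] at h2
  have h3 := ((ContinuousLinearMap.fst ℝ E E).hasFDerivAt.comp_hasDerivAt (0 : ℝ) h1).unique h2
  refine ⟨_, h1, ?_, h3, fun δ => ?_⟩
  · exact (jac_curve (hasFDerivAt_R ho.1).differentiableAt h1 h0).unique
      (h1.congr_of_eventuallyEq (.of_forall fun t => R_of_TM (G.psi_TM t ho)))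
  · have h4 := G.el_Z h 0 ho δ.1
    rw [G.Z_zero' hx, h0] at h4
    have h5 := ((jac_curve (h.jac_dA ho) h1 h0).clm_apply (hasDerivAt_const (0 : ℝ) δ.1)).unique h4
    have h6 := ((h.jac_dA ho).hasFDerivAt.clm_apply (h.jac_dvel ho).hasFDerivAt).unique
      ((hasFDerivAt_const (1 : ℝ) x).congr_of_eventuallyEq
        (eventually_of_mem (isOpen_OO.mem_nhds ho) fun y hy => h.vel_unit hy))
    have h7 := congrArg (fun L : E × E →L[ℝ] ℝ => L δ) h6
    have h8 := h.jac_DP ho δ (vel g x)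
    simp only [add_apply, ContinuousLinearMap.comp_apply, ContinuousLinearMap.flip_apply,
      zero_apply, map_zero, add_zero] at h5 h7
    rw [h.symm _ _ _ ho.1] at h7
    rw [om, h5, show (fderiv ℝ (fun p : ℝ × E × E => G.psi p.1 p.2) (0, x) (1, 0)).1 = vel g x from h3]
    linarith

namespace FD
variable (D : FD μ g)

/-- The map as a smooth map. -/
def fM : SMap (UO μ) (⊤ : Opens (CH d)) := ⟨D.f, D.f_smooth, fun _ _ => trivial⟩

/-- The second connection form. -/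
def alP : Om (UO μ) := pull D.fM (lam0 (RF d))

/-- The cone over the map. -/
def cone (x : E × E) : CH d := spd g x • D.f x

theorem alP_basic : D.alP ∈ (actB μ).Basic :=
  (actB μ).pull_mem_of_inv D.fM (fun p hp x hx => D.f_inv p hp x hx) _

theorem sq {x : E × E} (hx : x ∈ μ.OO) : ‖(D.f x).1‖ ^ 2 + ‖(D.f x).2‖ ^ 2 = 1 := by
  rw [← nr_sq, D.f_unit x hx, one_pow]

theorem tan {x : E × E} (hx : x ∈ μ.OO) (δ : E × E) :
    inner ℝ (D.f x).1 (fderiv ℝ D.f x δ).1 + inner ℝ (D.f x).2 (fderiv ℝ D.f x δ).2 = 0 := by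
  have h0 : HasFDerivAt D.f (fderiv ℝ D.f x) x := (fj_diff D.fM hx).hasFDerivAt
  have h1 := h0.fst.norm_sq.add h0.snd.norm_sq
  have h2 : HasFDerivAt (fun _ : E × E => (1 : ℝ)) (0 : E × E →L[ℝ] ℝ) x := hasFDerivAt_const _ _
  have h3 := h1.unique (h2.congr_of_eventuallyEq
    (eventually_of_mem (isOpen_OO.mem_nhds hx) fun y hy => D.sq hy))
  have h4 := congrArg (fun L : E × E →L[ℝ] ℝ => L δ) h3
  simp only [add_apply, smul_apply, ContinuousLinearMap.comp_apply, innerSL_apply_apply, zero_apply,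
    ContinuousLinearMap.coe_fst', ContinuousLinearMap.coe_snd', nsmul_eq_mul] at h4
  push_cast at h4
  linarith

theorem indep (h : IsMetric μ g) (m : ℕ) :
    ∫ y, den 0 (sg h * (D.alP * Om.d D.alP ^ m)) y = ∫ y, den 0 (sg h * (alF h * Om.d (alF h) ^ m)) y := by
  refine conn_indep (a := alF h) (a' := D.alP) h (isOne_one1 _ _) ((isOne_one1 _ _).pull _)
    (alF_basic h) D.alP_basic (fun x hx => ?_) m
  obtain ⟨v, h0, h1, h2, h3⟩ := D.gen x hx
  have ho := TT_OO hx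
  have u := h.vel_unit ho
  refine ⟨v, h0, fun e => ?_, ?_, ?_, ?_, ?_⟩
  · rw [← h1, e, map_zero] at u
    exact zero_ne_one u
  · rw [alF, ev_one1 (U := UO μ) _ _ ho, ctr_io, al_apply, h1, u, map_one]
  · have e : B0 (RF d) (D.f x) ((2 : ℝ) • Jc (D.f x)) = 1 := by
      have q := D.sq ho
      rw [B0_apply]
      simp only [Jc, Prod.smul_fst, Prod.smul_snd, inner_smul_right, inner_neg_right,
        real_inner_self_eq_norm_sq]
      linarith
    rw [alP, ev_pull D.fM _ ho, ctr_lmap, lam0, ev_one1 _ _ (D.fM.maps ho), ctr_io]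
    change lmap _ (algebraMap ℝ _ (B0 (RF d) (D.f x) (fderiv ℝ D.f x v))) = 1
    rw [h3, e, map_one, map_one]
  · have e : ∀ a b, fderiv ℝ (al g) x a b = fderiv ℝ (fun y : E × E => g y.1 (vel g y)) x a b.1 :=
      fun a b => by
        rw [show fderiv ℝ (al g) x = _ from ((h.jac_dA ho).hasFDerivAt.clm_comp
          (hasFDerivAt_const (ContinuousLinearMap.fst ℝ E E) x)).fderiv]
        simp
    rw [alF, ev_d_one1 (U := UO μ) _ _ ho, ctr_dop_io, ← map_zero (io (V := E × E))]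
    congr 1
    refine ContinuousLinearMap.ext fun δ => ?_
    change fderiv ℝ (al g) x v δ - fderiv ℝ (al g) x δ v = 0
    rw [e, e]
    exact h2 δ
  · rw [alP, d_pull, ev_pull D.fM _ ho, ctr_lmap, lam0, ev_d_one1 _ _ (D.fM.maps ho),
      (B0 (RF d)).fderiv, ctr_dop_io, lmap_io, ← map_zero (io (V := E × E))]
    congr 1
    refine ContinuousLinearMap.ext fun δ => ?_
    change B0 (RF d) (fderiv ℝ D.f x v) (fderiv ℝ D.f x δ) -
      B0 (RF d) (fderiv ℝ D.f x δ) (fderiv ℝ D.f x v) = 0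
    have t := D.tan ho δ
    rw [h3, B0_apply, B0_apply]
    simp only [Jc, Prod.smul_fst, Prod.smul_snd, real_inner_smul_left, real_inner_smul_right,
      inner_neg_right, inner_neg_left]
    rw [real_inner_comm (D.f x).1, real_inner_comm (D.f x).2]
    linarith

theorem contDiffOn_cone (h : IsMetric μ g) : ContDiffOn ℝ ∞ D.cone μ.OO :=
  h.contDiffOn_spd.smul D.f_smooth

end FD

theorem pts_pow {a : Om (UO μ)} (o : IsOne a) (b : a ∈ (actB μ).Basic) {u : E × E → ℝ}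
    (hu : ContDiffOn ℝ ∞ u (UO μ)) (k : ℕ) {y : CH d} (hy : y.2 ≠ 0) :
    den 0 (Om.d (fn u hu * a) ^ (k + 1)) y = (k + 1) * u (μ.κ 0 y) ^ k * top (lmap (fderiv ℝ (μ.κ 0) y)
      (io (fderiv ℝ u (μ.κ 0 y)) * ev (a * Om.d a ^ k) (μ.κ 0 y))) := by
  have hx : μ.κ 0 y ∈ UO μ := TT_OO (κ_TT 0 hy)
  obtain ⟨θ, hθ⟩ := o _ hx
  have e : ev (Om.d (fn u hu * a)) (μ.κ 0 y) =
      io (fderiv ℝ u (μ.κ 0 y)) * io θ + u (μ.κ 0 y) • ev (Om.d a) (μ.κ 0 y) := by
    rw [d_mul, (isFn_fn u hu).inv, ev_add, ev_mul, ev_mul, ev_d_fn _ _ hx, ev_fn _ _ hx, hθ,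
      Algebra.smul_def]
  have h0 : io (fderiv ℝ u (μ.κ 0 y)) * io θ * (io (fderiv ℝ u (μ.κ 0 y)) * io θ) = 0 := by
    rw [← mul_assoc, (aux_commute _ θ (io (fderiv ℝ u (μ.κ 0 y)))).eq, ← mul_assoc, io_sq, zero_mul,
      zero_mul]
  have h1 := den_basic (pow_mem ((actB μ).d_mem b) (k + 1)) y
  rw [den_apply _ hy, ev_pow _ _ hx] at h1
  rw [den_apply _ hy, ev_pow _ _ hx, e, aux_add_pow (aux_commute _ θ) h0, ev_mul, ev_pow _ _ hx, hθ,
    smul_pow, smul_pow, mul_smul_comm, map_add, map_smul, map_smul, map_smul, map_add, map_smul,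
    map_smul, map_smul, h1, smul_zero, zero_add, mul_assoc (io _), smul_eq_mul, smul_eq_mul,
    mul_assoc]

theorem pts_sg (h : IsMetric μ g) (κ : Om (UO μ)) {y : CH d} (hy : y.2 ≠ 0) :
    den 0 (sg h * κ) y = wt (Real.log (spd g (μ.κ 0 y))) / spd g (μ.κ 0 y) *
      top (lmap (fderiv ℝ (μ.κ 0) y) (io (fderiv ℝ (spd g) (μ.κ 0 y)) * ev κ (μ.κ 0 y))) := by
  rw [den_apply _ hy, ev_mul, ev_sg h (TT_OO (κ_TT 0 hy)), smul_mul_assoc, map_smul, map_smul,
    smul_eq_mul]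

/-- The metric in the chart. -/
def gch (μ : Model E d) (g : Met E) (a : RF d) : RF d →L[ℝ] RF d →L[ℝ] ℝ :=
  (g (μ.χ 0 a)).bilinearComp (fderiv ℝ (μ.χ 0) a) (fderiv ℝ (μ.χ 0) a)

theorem contDiff_gch (h : IsMetric μ g) : ContDiff ℝ ∞ (gch μ g) := by
  have h1 : ContDiff ℝ ∞ fun a => g (μ.χ 0 a) := contDiff_iff_contDiffAt.2 fun a =>
    (h.contDiffAt (χ_M 0 a).1).comp a (μ.χ_smooth 0).contDiffAt
  have h2 : ContDiff ℝ ∞ (fderiv ℝ (μ.χ 0)) := (μ.χ_smooth 0).fderiv_right (m := ∞) (by simp)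
  refine contDiff_clm_apply_iff.2 fun u => contDiff_clm_apply_iff.2 fun w => ?_
  exact (h1.clm_apply (h2.clm_apply contDiff_const)).clm_apply (h2.clm_apply contDiff_const)

theorem pts_one {c : ℝ} {k : ℕ} (hL : ∀ (D : CH d →L[ℝ] RF d →L[ℝ] ℝ) (B : CH d →L[ℝ] CH d →L[ℝ] ℝ),
      (∀ δ δ', B δ δ' = D δ δ'.1) →
      top (dop (io.comp B) ^ k) = c * bdet (D.comp (ContinuousLinearMap.inr ℝ _ _)))
    (h : IsMetric μ g) (hs : ContDiffOn ℝ ∞ (spd g) (UO μ)) {y : CH d} (hy : y.2 ≠ 0) :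
    den 0 (Om.d (fn (spd g) hs * alF h) ^ k) y = c * bdet (gch μ g y.1) := by
  have h1 : ContDiff ℝ ∞ fun y : CH d => gch μ g y.1 y.2 :=
    ((contDiff_gch h).comp contDiff_fst).clm_apply contDiff_snd
  have h2 : ContDiff ℝ ∞ fun y : CH d => (gch μ g y.1 y.2).comp
      (ContinuousLinearMap.fst ℝ (RF d) (RF d)) := h1.clm_comp contDiff_const
  have e : pull (sec μ 0) (fn (spd g) hs * alF h) = one1 (U := U0 d) _ h2.contDiffOn := by
    refine Om.ext fun z hz => ?_
    have hx : μ.κ 0 z ∈ UO μ := TT_OO (κ_TT 0 hz)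
    rw [ev_pull _ _ hz, ev_one1 _ _ hz]
    change lmap (fderiv ℝ (μ.κ 0) z) (ev (fn (spd g) hs * alF h) (μ.κ 0 z)) = _
    rw [ev_mul, ev_fn _ _ hx, alF, ev_one1 _ _ hx, ← Algebra.smul_def, ← map_smul, lmap_io]
    refine congrArg io (ContinuousLinearMap.ext fun δ => ?_)
    change spd g (μ.κ 0 z) * g (μ.κ 0 z).1 (vel g (μ.κ 0 z)) (fderiv ℝ (μ.κ 0) z δ).1 =
      g (μ.κ 0 z).1 (μ.κ 0 z).2 (fderiv ℝ (μ.χ 0) z.1 δ.1)
    rw [Dκ_fst, vel, map_smul, smul_apply, smul_eq_mul, mul_inv_cancel_left₀ (h.spd_pos hx).ne']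
  have hD := (h1.differentiable (by simp) y).hasFDerivAt
  have hy' : y ∈ U0 d := hy
  rw [den, map_pow, ← d_pull, e, ev_pow _ _ hy', ev_d_one1 _ _ hy',
    hL (fderiv ℝ (fun y : CH d => gch μ g y.1 y.2) y) _ fun δ δ' => ?_]
  · congr 2
    exact (HasFDerivAt.comp (f := fun w => (y.1, w)) y.2 hD
      (hasFDerivAt_prodMk_right y.1 y.2)).unique (gch μ g y.1).hasFDerivAt
  · rw [(hD.clm_comp (hasFDerivAt_const _ y)).fderiv]
    simp

theorem pts_two (h : IsMetric μ g) (D : FD μ g)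
    (hs : ContDiffOn ℝ ∞ (fun x => spd g x ^ 2) (UO μ)) (k : ℕ) {y : CH d} (hy : y.2 ≠ 0) :
    den 0 (Om.d (fn (fun x => spd g x ^ 2) hs * D.alP) ^ k) y =
      (fderiv ℝ (fun y => D.cone (μ.κ 0 y)) y).det * top (dop (io.comp (B0 (RF d))) ^ k) := by
  let M : SMap (UO μ) (⊤ : Opens (CH d)) := ⟨D.cone, D.contDiffOn_cone h, fun _ _ => trivial⟩
  have hT : ∀ w : CH d, w ∈ (⊤ : Opens (CH d)) := fun _ => trivial
  have e : fn (fun x => spd g x ^ 2) hs * D.alP = pull M (lam0 (RF d)) := by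
    refine Om.ext fun x hx => ?_
    have hO : μ.OO ∈ 𝓝 x := isOpen_OO.mem_nhds hx
    have d1 := ((h.contDiffOn_spd.contDiffAt hO).differentiableAt (by simp)).hasFDerivAt
    have d2 := ((D.f_smooth.contDiffAt hO).differentiableAt (by simp)).hasFDerivAt
    have d3 : fderiv ℝ D.cone x = spd g x • fderiv ℝ D.f x +
        (fderiv ℝ (spd g) x).smulRight (D.f x) := (d1.smul d2).fderiv
    rw [ev_mul, ev_fn _ _ hx, FD.alP, ev_pull _ _ hx, ev_pull _ _ hx, lam0, ev_one1 _ _ (hT _),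
      ev_one1 _ _ (hT _), lmap_io, lmap_io, ← Algebra.smul_def, ← map_smul]
    refine congrArg io (ContinuousLinearMap.ext fun δ => ?_)
    change spd g x ^ 2 * B0 (RF d) (D.f x) (fderiv ℝ D.f x δ) =
      B0 (RF d) (spd g x • D.f x) (fderiv ℝ D.cone x δ)
    have h0 : B0 (RF d) (D.f x) (D.f x) = 0 := by rw [B0_apply, real_inner_comm, sub_self, mul_zero]
    rw [d3]
    simp only [map_smul, map_add, add_apply, smul_apply, ContinuousLinearMap.smulRight_apply, h0,
      smul_eq_mul]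
    ring
  have hy' : y ∈ U0 d := hy
  rw [e, d_pull, ← map_pow, den, ← pull_comp, ev_pull _ _ hy', top_lmap, ev_pow _ _ (hT _), lam0,
    ev_d_one1 _ _ (hT _), ContinuousLinearMap.fderiv]
  rfl

theorem rw0_zero (g : Met E) {y : CH d} (m : ℕ) (hy : y.2 = 0) : rw0 (m + 1) (spd g (μ.κ 0 y)) = 0 := by
  rw [spd, κ, hy, map_zero, map_zero, Real.sqrt_zero, rw0, zero_pow m.succ_ne_zero, div_zero]

theorem den_pts {k : ℕ} (hd : Even d) (hk : d = k + 1) (h : IsMetric μ g) : ∃ c : ℝ, c ≠ 0 ∧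
    (∀ y, den 0 (sg h * (alF h * Om.d (alF h) ^ k)) y =
      c * (rw0 d (spd g (μ.κ 0 y)) * bdet (gch μ g y.1))) ∧
    ∀ (D : FD μ g) y, den 0 (sg h * (D.alP * Om.d D.alP ^ k)) y =
      c / 2 * (rw0 (2 * d) (spd g (μ.κ 0 y)) * (fderiv ℝ (fun y => D.cone (μ.κ 0 y)) y).det) := by
  obtain ⟨c, hc, hc2, hL⟩ := legendre (A := RF d) (by rwa [finrank_euclideanSpace_fin])
  rw [finrank_euclideanSpace_fin] at hc2 hL
  subst hk
  have hk0 : (k : ℝ) + 1 ≠ 0 := by positivity
  refine ⟨c / (k + 1), div_ne_zero hc hk0, fun y => ?_, fun D y => ?_⟩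
  · by_cases hy : y.2 = 0
    · rw [den_zero _ hy, rw0_zero g k hy, zero_mul, mul_zero]
    have hs : ContDiffOn ℝ ∞ (spd g) (UO μ) := h.contDiffOn_spd
    have h0 := (h.spd_pos (TT_OO (κ_TT 0 hy))).ne'
    have h1 := pts_one hL h hs hy
    rw [pts_pow (a := alF h) (isOne_one1 _ _) (alF_basic h) hs k hy] at h1
    rw [pts_sg _ _ hy, rw0]
    generalize top (V := CH (k + 1)) _ = T at h1 ⊢
    field_simp
    linear_combination wt (Real.log (spd g (μ.κ 0 y))) * spd g (μ.κ 0 y) * h1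
  · by_cases hy : y.2 = 0
    · rw [den_zero _ hy, show 2 * (k + 1) = 2 * k + 1 + 1 from rfl, rw0_zero g _ hy, zero_mul, mul_zero]
    have hs : ContDiffOn ℝ ∞ (fun x => spd g x ^ 2) (UO μ) := h.contDiffOn_spd.pow 2
    have ho := TT_OO (κ_TT (μ := μ) 0 hy)
    have h0 := (h.spd_pos ho).ne'
    have h1 := pts_two h D hs (k + 1) hy
    have d1 := ((h.contDiffOn_spd.contDiffAt (isOpen_OO.mem_nhds ho)).differentiableAt
      (by simp)).hasFDerivAt
    have d2 : fderiv ℝ (fun x => spd g x ^ 2) (μ.κ 0 y) =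
        (2 * spd g (μ.κ 0 y)) • fderiv ℝ (spd g) (μ.κ 0 y) := by
      simpa using (d1.pow 2).fderiv
    rw [hc2, pts_pow (a := D.alP) ((isOne_one1 _ _).pull _) D.alP_basic hs k hy, d2, map_smul,
      smul_mul_assoc, map_smul, map_smul, smul_eq_mul] at h1
    rw [pts_sg _ _ hy, rw0]
    generalize top (V := CH (k + 1)) _ = T at h1 ⊢
    field_simp
    linear_combination wt (Real.log (spd g (μ.κ 0 y))) * spd g (μ.κ 0 y) * h1

end Pool.Agent.Work.MP_8c604c_gt.OC
end
end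

-- merged part: Pool.Agent.Work.MP_8c604c_gt.OC.Main
section
/-!
Block C, assembly: the signed count bounds the volume.
-/

set_option maxSynthPendingDepth 3
set_option linter.unusedSectionVars false

open Set Filter Topology MeasureTheory
open scoped ContDiff

noncomputable section
namespace Pool.Agent.Work.MP_8c604c_gt.OC

open O O.Model TopologicalSpace Lam Om Real

theorem exists_e (d : ℕ) : ∃ e : (Fin d → ℂ) ≃L[ℝ] CH d, ∀ w, e (Complex.I • w) = Jc (e w) := by
  let φ : (Fin d → ℝ) ≃ₗ[ℝ] RF d := (WithLp.linearEquiv 2 ℝ _).symm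
  let e : (Fin d → ℂ) ≃ₗ[ℝ] CH d :=
    { toFun := fun w => (φ fun j => (w j).re, φ fun j => (w j).im)
      invFun := fun y j => ⟨φ.symm y.1 j, φ.symm y.2 j⟩
      map_add' := fun a b => Prod.ext (map_add φ (fun j => (a j).re) fun j => (b j).re)
        (map_add φ (fun j => (a j).im) fun j => (b j).im)
      map_smul' := fun r a => by
        refine Prod.ext ((congrArg φ ?_).trans (map_smul φ r fun j => (a j).re))
          ((congrArg φ ?_).trans (map_smul φ r fun j => (a j).im)) <;> ext j <;> simp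
      left_inv := fun w => by
        ext j : 1
        simp
      right_inv := fun y => by simp }
  refine ⟨e.toContinuousLinearEquiv, fun w => ?_⟩
  refine Prod.ext ((congrArg φ ?_).trans (map_neg φ fun j => (w j).im)) (congrArg φ ?_) <;> ext j <;> simp

theorem main_e {d : ℕ} {e : (Fin d → ℂ) ≃L[ℝ] CH d} (he : ∀ w, e (Complex.I • w) = Jc (e w)) (t : ℝ)
    (w : Fin d → ℂ) : e (Complex.exp (t * Complex.I) • w) = cos t • e w + sin t • Jc (e w) := by
  rw [Complex.exp_mul_I, add_smul, mul_smul, ← Complex.ofReal_cos, ← Complex.ofReal_sin,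
    Complex.coe_smul, Complex.coe_smul, map_add, map_smul, map_smul, he]

/-- The volume of the Cayley plane of diameter `π / 2`. -/
theorem vmod_ge : ENNReal.ofReal (6 * π ^ 8 / Nat.factorial 11) ≤ vmod 16 7 := by
  let f : ℝ → ℝ := (Ioo 0 (π / 2)).indicator fun τ => thk 16 7 τ / τ ^ (16 - 1)
  have e : ∀ τ : ℝ, thk 16 7 τ = sin τ ^ 15 * cos τ ^ (2 * 3 + 1) := fun τ => by
    rw [thk, sin_two_mul]
    ring
  have h0 : ∀ τ, 0 ≤ f τ := fun τ => indicator_nonneg (fun τ hτ => by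
    have := sin_nonneg_of_nonneg_of_le_pi hτ.1.le (by linarith [hτ.2, pi_pos])
    have := cos_nonneg_of_mem_Icc ⟨by linarith [hτ.1, pi_pos], hτ.2.le⟩
    have := hτ.1
    rw [e]
    positivity) τ
  have h1 : ∫ y in Ioi (0 : ℝ), y ^ (16 - 1) • f y = 1 / 2640 := by
    rw [setIntegral_congr_fun measurableSet_Ioi
      (g := (Ioo 0 (π / 2)).indicator fun τ => sin τ ^ 15 * cos τ ^ (2 * 3 + 1)) fun y hy => by
        by_cases h : y ∈ Ioo 0 (π / 2)
        · simp only [f, indicator_of_mem h, e, smul_eq_mul]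
          exact mul_div_cancel₀ _ (pow_pos hy _).ne'
        · simp only [f, indicator_of_notMem h, smul_zero],
      setIntegral_indicator measurableSet_Ioo, inter_eq_right.2 Ioo_subset_Ioi_self,
      ← integral_Ioc_eq_integral_Ioo, ← intervalIntegral.integral_of_le (by positivity),
      integral_sin_pow_mul_cos_pow_odd, sin_zero, sin_pi_div_two,
      show (fun u : ℝ => u ^ 15 * (1 - u ^ 2) ^ 3) = fun u => u ^ 15 - 3 * u ^ 17 + 3 * u ^ 19 - u ^ 21 from
        funext fun u => by ring,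
      intervalIntegral.integral_sub (Continuous.intervalIntegrable (by fun_prop) _ _)
        (Continuous.intervalIntegrable (by fun_prop) _ _),
      intervalIntegral.integral_add (Continuous.intervalIntegrable (by fun_prop) _ _)
        (Continuous.intervalIntegrable (by fun_prop) _ _),
      intervalIntegral.integral_sub (Continuous.intervalIntegrable (by fun_prop) _ _)
        (Continuous.intervalIntegrable (by fun_prop) _ _),
      intervalIntegral.integral_const_mul, intervalIntegral.integral_const_mul]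
    simp only [integral_pow]
    norm_num
  have h2 : ∫ y : RF 16, f ‖y‖ = 6 * π ^ 8 / Nat.factorial 11 := by
    rw [integral_fun_norm_addHaar volume f, finrank_euclideanSpace_fin, h1, Measure.real,
      InnerProductSpace.volume_ball_of_dim_even (k := 8) finrank_euclideanSpace_fin 0 1]
    simp only [ENNReal.ofReal_one, one_pow, one_mul]
    rw [ENNReal.toReal_ofReal (by positivity)]
    simp only [Nat.factorial, smul_eq_mul, nsmul_eq_mul]
    push_cast
    ring
  rw [← h2, ← Real.enorm_of_nonneg (integral_nonneg fun y => h0 _)]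
  refine (enorm_integral_le_lintegral_enorm _).trans_eq (lintegral_congr fun y => ?_)
  exact Real.enorm_of_nonneg (h0 _)

variable {E : Type} [NormedAddCommGroup E] [InnerProductSpace ℝ E] [FiniteDimensional ℝ E]
  {μ : Model E 16} {g : Met E}

theorem FD.cone_sc (h : IsMetric μ g) (P : FD μ g) {m : ℝ} (hm : 0 < m) {x : E × E} (hx : x ∈ μ.OO) :
    P.cone (sc m x) = m • P.cone x := by
  rw [FD.cone, FD.cone, spd_sc hm.le, P.f_inv m hm x hx, mul_smul]

theorem FD.diff (h : IsMetric μ g) (P : FD μ g) (i : Fin (μ.N + 1)) {y : CH 16} (hy : y.2 ≠ 0) :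
    DifferentiableAt ℝ (fun y => P.cone (μ.κ i y)) y :=
  (((P.contDiffOn_cone h).contDiffAt (isOpen_OO.mem_nhds (TT_OO (κ_TT i hy)))).differentiableAt
    (by simp)).comp y (hasFDerivAt_κ i y).differentiableAt

theorem FD.ae_chart (h : IsMetric μ g) (P : FD μ g) :
    ∀ᵐ w : CH 16, ∀ x ∈ μ.TT, P.cone x = w → x.1 ∈ μ.W 0 := by
  have h1 : ∀ i, volume ((fun y => P.cone (μ.κ i y)) '' {y : CH 16 | y.2 ≠ 0 ∧ μ.χ i y.1 ∉ μ.W 0}) = 0 :=
    fun i => addHaar_image_eq_zero_of_differentiableOn_of_addHaar_eq_zero volume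
      (fun y hy => (P.diff h i hy.1).differentiableWithinAt)
      (measure_mono_null (fun y hy => hy.2) (ae_W i))
  filter_upwards [ae_all_iff.2 fun i => measure_eq_zero_iff_ae_notMem.1 (h1 i)] with w hw x hx e
  obtain ⟨i, y, hy, rfl⟩ := exists_κ hx
  exact not_not.1 fun h0 => hw i ⟨y, ⟨hy, h0⟩, e⟩

/-- The topological data `D` come from the metric `g`. -/
structure Lnk (g : Met E) (D : OT.TD μ.mf 40) (lp : E × E → OT.LM E) : Prop where
  mem : ∀ c, c ∈ D.S ↔ ∃ x ∈ μ.TT, c = lp x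
  foot : ∀ x ∈ μ.TT, lp x 1 = x.1
  vel : ∀ x ∈ μ.TT, D.vel (lp x) = vel g x

theorem count_bound (hc : OT.CountLe μ.mf (μ.ch 0)) (h : IsMetric μ g) {D : OT.TD μ.mf 40}
    {lp : E × E → OT.LM E} (L : Lnk g D lp) (P : FD μ g) (e : (Fin 16 → ℂ) ≃L[ℝ] CH 16)
    (hΦ : ∀ x ∈ μ.TT, e (D.Φ (lp x)) = P.f x) :
    ∀ᵐ w : CH 16, ∀ T : Finset (CH 16), (∀ y, y ∈ T ↔ y ∈ {y : CH 16 | y.2 ≠ 0} ∧ P.cone (μ.κ 0 y) = w) →
      (∀ y ∈ T, (fderiv ℝ (fun y => P.cone (μ.κ 0 y)) y).det ≠ 0) →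
      |∑ y ∈ T, (SignType.sign (fderiv ℝ (fun y => P.cone (μ.κ 0 y)) y).det : ℝ)| ≤ 78 := by
  have : (𝓝[≠] (0 : CH 16)).NeBot := Module.punctured_nhds_neBot ℝ (CH 16) 0
  have : NullSingletonClass (volume : Measure (CH 16)) := Measure.IsAddHaarMeasure.nullSingletonClass _
  filter_upwards [P.ae_chart h, (Set.countable_singleton (0 : CH 16)).ae_notMem volume] with w hw h0 T hT hd
  have key : ∀ x ∈ μ.TT, ∀ r : ℝ, 0 < r → P.cone (sc (r / spd g x) x) = e (r • D.Φ (lp x)) := fun x hx r hr => by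
    have p := h.spd_pos (TT_OO hx)
    rw [P.cone_sc h (div_pos hr p) (TT_OO hx), FD.cone, smul_smul, div_mul_cancel₀ _ p.ne', map_smul, hΦ x hx]
  have hv : ∀ (x : E × E) (r : ℝ), (sc (r / spd g x) x).2 = r • vel g x := fun x r => by
    rw [vel, smul_smul, ← div_eq_mul_inv]
    rfl
  have R : OT.Reg D.toTD0 D.Φ (μ.ch 0) (e.symm w) T fun y => (e.symm : CH 16 →L[ℝ] Fin 16 → ℂ).comp
      (fderiv ℝ (fun y => P.cone (μ.κ 0 y)) y) := by
    refine ⟨fun h1 => h0 (e.symm.map_eq_zero_iff.1 h1), fun c hc r hr h1 => ?_,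
      fun y => e.symm (P.cone (μ.κ 0 y)), fun y c hc r hr h1 h2 => ?_, fun y hy => ?_⟩
    · obtain ⟨x, hx, rfl⟩ := (L.mem c).1 hc
      have hx' := sc_mem_TT (div_pos hr (h.spd_pos (TT_OO hx))).ne' hx
      have h2 : P.cone (sc (r / spd g x) x) = w := by rw [key x hx r hr, h1, e.apply_symm_apply]
      have h4 := κσ (TT_TM hx') (hw _ hx' h2)
      refine ⟨μ.σ 0 (sc (r / spd g x) x), (hT _).2 ⟨fun h5 => hx'.2.2 ?_, by rw [h4, h2]⟩,
        (L.foot x hx).trans (congrArg Prod.fst h4).symm, ?_⟩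
      · rw [← h4, κ, h5, map_zero]
      · rw [L.vel x hx, ← hv]
        exact congrArg Prod.snd h4
    · obtain ⟨x, hx, rfl⟩ := (L.mem c).1 hc
      rw [L.foot x hx] at h1
      rw [L.vel x hx, ← hv] at h2
      beta_reduce
      rw [show μ.κ 0 y = sc (r / spd g x) x from Prod.ext h1.symm h2, key x hx r hr, e.symm_apply_apply]
    · obtain ⟨h1, h2⟩ := (hT y).1 hy
      refine ⟨h1, congrArg e.symm h2, (e.symm : CH 16 →L[ℝ] Fin 16 → ℂ).hasFDerivAt.comp y
        (P.diff h 0 h1).hasFDerivAt, ?_⟩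
      exact e.symm.injective.comp (ContinuousLinearMap.toContinuousLinearEquivOfDetNeZero _ (hd y hy)).injective
  have H := hc D _ _ _ R e
  have e1 : ∀ A : CH 16 →L[ℝ] CH 16, (((e.symm : CH 16 →L[ℝ] Fin 16 → ℂ).comp A).comp
      (e : (Fin 16 → ℂ) →L[ℝ] CH 16)).det = A.det := fun A =>
    LinearMap.det_conj (A : CH 16 →ₗ[ℝ] CH 16) e.symm.toLinearEquiv
  simpa only [e1] using H

theorem int_chart (h : IsMetric μ g) :
    (∀ y : CH 16, 0 ≤ rw0 16 (spd g (μ.κ 0 y)) * bdet (gch μ g y.1)) ∧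
    ∫⁻ y : CH 16, ENNReal.ofReal (rw0 16 (spd g (μ.κ 0 y)) * bdet (gch μ g y.1)) =
      ENNReal.ofReal (16 * π ^ 8 / Nat.factorial 8) * vol μ g := by
  have hs : ∀ a u w, gch μ g a u w = gch μ g a w u := fun a u w => h.symm _ _ _ (χ_M 0 a).1
  have hp : ∀ a u, u ≠ 0 → 0 < gch μ g a u u := fun a u hu =>
    h.pos _ _ (χ_M 0 a).1 (TT_OO (κ_TT 0 (y := (a, u)) hu)).2
  have cg : Continuous fun y : CH 16 => gch μ g y.1 := (contDiff_gch h).continuous.comp continuous_fst
  have cs : Continuous fun y : CH 16 => spd g (μ.κ 0 y) :=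
    ((cg.clm_apply continuous_snd).clm_apply continuous_snd).sqrt
  have hm : Measurable fun y : CH 16 => rw0 16 (spd g (μ.κ 0 y)) * bdet (gch μ g y.1) :=
    ((rw0_meas _).comp cs.measurable).mul (continuous_bdet.comp cg).measurable
  refine ⟨fun y => mul_nonneg (rw0_nonneg _ (sqrt_nonneg _)) (bdet_pos (hs _) (hp _)).le, ?_⟩
  rw [Measure.volume_eq_prod, lintegral_prod _ hm.ennreal_ofReal.aemeasurable, vol,
    ← lintegral_const_mul' _ _ ENNReal.ofReal_ne_top]
  refine lintegral_congr fun a => ?_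
  have := int_fibre (k := 8) finrank_euclideanSpace_fin (by norm_num) _ (hs a) (hp a)
  rw [show (2 * (8 : ℕ) : ℝ) = 16 by norm_num] at this
  exact this

theorem vol_le_of_fd (hcl : OT.CountLe μ.mf (μ.ch 0)) (h : IsMetric μ g) {D : OT.TD μ.mf 40}
    {lp : E × E → OT.LM E} (L : Lnk g D lp) (P : FD μ g) (e : (Fin 16 → ℂ) ≃L[ℝ] CH 16)
    (hΦ : ∀ x ∈ μ.TT, e (D.Φ (lp x)) = P.f x) : vol μ g ≤ vmod 16 7 := by
  obtain ⟨c, hc, p1, p2⟩ := den_pts (k := 15) (by decide) rfl h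
  have hU : IsOpen {y : CH 16 | y.2 ≠ 0} := (U0 16).isOpen
  have e1 := P.indep h 15
  have i0 := integrable_den h (alF h * Om.d (alF h) ^ 15)
  have i1 := integrable_den h (P.alP * Om.d P.alP ^ 15)
  rw [funext p1] at i0
  rw [funext (p2 P)] at i1
  simp only [p1, p2 P] at e1
  rw [integral_const_mul, integral_const_mul] at e1
  have e2 : ∀ y ∈ {y : CH 16 | y.2 ≠ 0}, spd g (μ.κ 0 y) = nr (P.cone (μ.κ 0 y)) := fun y hy => by
    have ho := TT_OO (κ_TT (μ := μ) 0 hy)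
    rw [FD.cone, nr_smul (h.spd_pos ho).le, P.f_unit _ ho, mul_one]
  have i2 := ((integrable_const_mul_iff (IsUnit.mk0 _ (div_ne_zero hc two_ne_zero)) _).1 i1).integrableOn
    (s := {y : CH 16 | y.2 ≠ 0})
  obtain ⟨t1, t2⟩ := int_target (A := RF 16) finrank_euclideanSpace_fin (by norm_num)
  have a1 := C.area_bound volume hU (f := fun y => P.cone (μ.κ 0 y))
    (((P.contDiffOn_cone h).comp (contDiff_κ 0).contDiffOn fun _ hy => TT_OO (κ_TT 0 hy)).of_le (by simp))
    (φ := fun w => rw0 (2 * 16) (nr w)) (fun w => rw0_nonneg _ (nr_nonneg w)) t1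
    (i2.congr_fun (fun y hy => by simp only [e2 y hy]) hU.measurableSet) (by norm_num)
    (count_bound hcl h L P e hΦ)
  rw [t2, ← setIntegral_congr_fun hU.measurableSet
    (f := fun y => rw0 (2 * 16) (spd g (μ.κ 0 y)) * (fderiv ℝ (fun y => P.cone (μ.κ 0 y)) y).det)
    (fun y hy => by simp only [e2 y hy]), setIntegral_eq_integral_of_forall_compl_eq_zero
    (fun y hy => by rw [rw0_zero g 31 (not_not.1 hy), zero_mul])] at a1
  have e4 := mul_left_cancel₀ hc (show c * _ = c * _ from (by rw [← e1]; ring :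
    c * (∫ y : CH 16, rw0 16 (spd g (μ.κ 0 y)) * bdet (gch μ g y.1)) = c * (1 / 2 * ∫ y : CH 16,
      rw0 (2 * 16) (spd g (μ.κ 0 y)) * (fderiv ℝ (fun y => P.cone (μ.κ 0 y)) y).det)))
  obtain ⟨n0, n1⟩ := int_chart h
  rw [← ofReal_integral_eq_lintegral_ofReal ((integrable_const_mul_iff (IsUnit.mk0 _ hc) _).1 i0)
    (.of_forall n0), e4] at n1
  have k0 : 0 < 16 * π ^ 8 / Nat.factorial 8 := by positivity
  refine le_trans ((ENNReal.mul_le_mul_iff_right (ENNReal.ofReal_pos.2 k0).ne' ENNReal.ofReal_ne_top).1 ?_)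
    vmod_ge
  rw [← n1, ← ENNReal.ofReal_mul k0.le]
  refine ENNReal.ofReal_le_ofReal
    ((mul_le_mul_of_nonneg_left ((le_abs_self _).trans a1) (by norm_num)).trans_eq ?_)
  simp only [Nat.factorial]
  push_cast
  ring

/-- The output of block C. -/
theorem vol_le (μ : Model E 16) (hcl : OT.CountLe μ.mf (μ.ch 0)) (h : IsMetric μ g) (G : Geo μ g)
    (D : OT.TD μ.mf 40) (lp : E × E → OT.LM E) (F : E × E → Fin 16 → ℂ)
    (hF : ∀ x ∈ μ.TT, ContDiffAt ℝ ∞ F x) (hI : ∀ m, 0 < m → ∀ x ∈ μ.TT, F (sc m x) = F x)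
    (hψ : ∀ t, ∀ x ∈ μ.TT, F (G.psi t x) = Complex.exp (2 * t * Complex.I) • F x)
    (hS : ∀ c, c ∈ D.S ↔ ∃ x ∈ μ.TT, c = lp x) (h1 : ∀ x ∈ μ.TT, lp x 1 = x.1)
    (hv : ∀ x ∈ μ.TT, D.vel (lp x) = vel g x) (hΦ : ∀ x ∈ μ.TT, D.Φ (lp x) = F x) :
    vol μ g ≤ vmod 16 7 := by
  obtain ⟨e, he⟩ := exists_e 16
  have p0 : ∀ c ∈ D.S, e (D.Φ c) ≠ 0 := fun c hc h0 => D.neΦ c hc (e.map_eq_zero_iff.1 h0)
  have p1 : ∀ x ∈ μ.TT, e (F x) ≠ 0 := fun x hx => hΦ x hx ▸ p0 _ ((hS _).2 ⟨x, hx, rfl⟩)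
  have hs : ContDiffOn ℝ ∞ (fun x => e (F (μ.R x))) μ.OO := fun x hx =>
    (e.contDiff.contDiffAt.comp x ((hF _ (R_mem_TT hx)).comp x (contDiffAt_R hx.1))).contDiffWithinAt
  have hr : ∀ t, ∀ x ∈ μ.TT, e (F (G.psi t x)) =
      cos (2 * t) • e (F x) + sin (2 * t) • Jc (e (F x)) := fun t x hx => by
    rw [hψ t x hx, ← main_e he]
    push_cast
    rfl
  let D' : OT.TD μ.mf 40 :=
    { D with
      Φ := fun c => (nr (e (D.Φ c)))⁻¹ • D.Φ c
      cΦ := fun c hc => (((contDiffAt_nr (p0 c hc)).continuousAt.comp_continuousWithinAt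
        (f := fun c => e (D.Φ c)) (e.continuous.comp_continuousOn D.cΦ c hc)).inv₀
          (nr_pos (p0 c hc)).ne').smul (D.cΦ c hc)
      eqΦ := fun θ c hc => by
        rw [D.eqΦ θ c hc, smul_comm]
        congr 3
        rw [← Circle.exp_arg θ, Circle.coe_exp, main_e he, nr_rot]
      neΦ := fun c hc => smul_ne_zero (inv_ne_zero (nr_pos (p0 c hc)).ne') (D.neΦ c hc) }
  have sm : ContDiffOn ℝ ∞ (fun x => (nr (e (F (μ.R x))))⁻¹ • e (F (μ.R x))) μ.OO :=
    ContDiffOn.smul (ContDiffOn.inv (f := fun x => nr (e (F (μ.R x)))) (fun x hx =>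
      ContDiffAt.comp_contDiffWithinAt (g := nr) x (contDiffAt_nr (p1 _ (R_mem_TT hx))) (hs x hx))
        fun x hx => (nr_pos (p1 _ (R_mem_TT hx))).ne') hs
  let P : FD μ g :=
    { f := fun x => (nr (e (F (μ.R x))))⁻¹ • e (F (μ.R x))
      f_smooth := sm
      f_inv := fun m hm x hx => by simp only [R_sc, hI m hm _ (R_mem_TT hx)]
      f_unit := fun x hx => by
        rw [nr_smul (inv_nonneg.2 (nr_nonneg _)), inv_mul_cancel₀ (nr_pos (p1 _ (R_mem_TT hx))).ne']
      gen := fun x hx => by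
        obtain ⟨v, g0, g1, g2, g3⟩ := exists_gen G h hx
        refine ⟨v, g1, g2, g3, ?_⟩
        have h2 := jac_curve ((sm.contDiffAt (isOpen_OO.mem_nhds (TT_OO hx))).differentiableAt (by simp))
          g0 (G.psi_zero' hx)
        have h3 : HasDerivAt (fun t : ℝ => 2 * t) 2 0 := by
          simpa using (hasDerivAt_id (0 : ℝ)).const_mul 2
        have h4 := ((h3.cos.smul_const (e (F x))).add (h3.sin.smul_const (Jc (e (F x))))).const_smul
          (nr (e (F x)))⁻¹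
        have h5 := h2.unique (h4.congr_of_eventuallyEq (Eventually.of_forall fun t => by
          simp only [R_of_TM (G.psi_TM t (TT_OO hx)), hr t x hx, nr_rot]
          rfl))
        rw [h5, R_of_TT hx]
        simp [Jc, smul_smul, mul_comm] }
  exact vol_le_of_fd hcl h (D := D') ⟨hS, h1, hv⟩ P e fun x hx => by
    simp only [D', P, map_smul, hΦ x hx, R_of_TT hx]

end Pool.Agent.Work.MP_8c604c_gt.OC
end
end
end
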