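import Pool.Agent.Work.MP_8c604c_gt.OC.Main
import Pool.Agent.Work.MP_8c604c_gt.OS.ND
import Pool.Agent.Work.MP_8c604c_gt.OB.Out
import Pool.Agent.Work.MP_8c604c_gt.OS.NDa
import Pool.Agent.Work.MP_8c604c_gt.OG.HS

/-!
The multiplicity of the conjugate points and the volume bound for a Blaschke metric.
-/

set_option maxSynthPendingDepth 3

open Set Filter Topology

noncomputable section
namespace Pool.Agent.Work.MP_8c604c_gt.O

open Model

variable {E : Type} [NormedAddCommGroup E] [InnerProductSpace ℝ E] [FiniteDimensional ℝ E]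
  {μ : Model E 16} {g : Met E} {G : Geo μ g}

theorem Bl.hvol (hB : Bl g G) (Q : OT.MT μ.mf) (hc : OT.CountLe μ.mf (μ.ch 0)) :
    (∀ x ∈ μ.TT, G.kk x = 7) ∧ vol μ g ≤ vmod 16 7 := by
  obtain ⟨k, ⟨D0⟩, hk⟩ := hB.exists_TD0
  obtain rfl := D0.k_eq Q
  obtain ⟨b, b1, b2, b3⟩ := hB.exists_bil
  obtain ⟨N⟩ := hB.exists_ND2 hk 40
  obtain ⟨F, F1, F2, F3, F4⟩ := hB.exists_F
  obtain ⟨T, T1, T2⟩ := hB.exists_TD hk ⟨b, b1, fun x hx y hy => b2 y hy x hx, b3⟩ N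
    (F1.continuousOn.mono fun _ => TT_OO) F2 F3 F4
  exact ⟨hk, OC.vol_le μ hc hB.met G T G.lp F
    (fun x hx => F1.contDiffAt (isOpen_OO.mem_nhds (TT_OO hx))) F2 F4 T1 (fun x hx => (T2 x hx).1)
    (fun x hx => (T2 x hx).2.1) fun x hx => (T2 x hx).2.2⟩

end Pool.Agent.Work.MP_8c604c_gt.O
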